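import Pool.Agent.H530R3.Ph.Leaf

/-!
# The sizes of the levels, when the bits of the first level have arbitrarily small probabilities
-/

set_option autoImplicit false

namespace Pool.Agent.H530R3.Ph

open Finset H568R2 Pool.Agent.H676 Pool.Agent.H620R2.Gauge Pool.Agent.NPC
open Pool.Agent.H591R3.PHG

/-- the invariants, without the lower bound -/
structure Inv0 (n : ℕ) (law : Option Bool → ℝ) : Prop where
  nonneg : ∀ v, 0 ≤ law v
  sum : ∑ v, law v = 1
  rare : law (some true) ≤ 2 * (1 / 2 ^ (2 * n)) * (law none / 2 ^ (4 * n) + law (some true))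
  pos : 0 < law none / 2 ^ (4 * n) + law (some true)
  hi : law none / 2 ^ (4 * n) + law (some true) ≤ 1 / 2 ^ (8 * n)

theorem inv_step0 {n c : ℕ} (hn : 5 ≤ n) {law : Option Bool → ℝ} (h : Inv0 n law)
    (h1 : 16 * n ≤ c * (law none / 2 ^ (4 * n) + law (some true)))
    (h2 : c * (law none / 2 ^ (4 * n) + law (some true)) < 32 * n) :
    Inv n (nxt (1 / 2 ^ (4 * n)) (1 / 2 ^ (4 * n)) (1 / 2 ^ (2 * n)) (8 * n * 2 ^ (4 * n)) c
      law) := by
  have hnr : (5 : ℝ) ≤ n := by exact_mod_cast hn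
  have hc0 : (0 : ℝ) ≤ c := Nat.cast_nonneg c
  have hT20 : (2 : ℝ) ^ 20 ≤ 2 ^ (4 * n) := pow_le_pow_right₀ (by norm_num) (by omega)
  have hX10 : (2 : ℝ) ^ 10 ≤ 2 ^ (2 * n) := pow_le_pow_right₀ (by norm_num) (by omega)
  have hP40 : (2 : ℝ) ^ 40 ≤ 2 ^ (8 * n) := pow_le_pow_right₀ (by norm_num) (by omega)
  have hs : 1 ≤ 8 * n * 2 ^ (4 * n) := Nat.mul_pos (by omega) (by positivity)
  have hsc : ((8 * n * 2 ^ (4 * n) : ℕ) : ℝ) = 8 * n * 2 ^ (4 * n) := by push_cast; rfl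
  have hexp1 : (2 : ℝ) ≤ Real.exp 1 := by
    have := Real.add_one_le_exp (1 : ℝ)
    linarith
  have hTe : (2 : ℝ) ^ (4 * n) ≤ Real.exp (8 * n) := by
    calc (2 : ℝ) ^ (4 * n) ≤ (Real.exp 1) ^ (4 * n) := pow_le_pow_left₀ (by norm_num) hexp1 _
      _ = Real.exp (4 * n) := by
          rw [← Real.exp_nat_mul]
          push_cast
          rw [mul_one]
      _ ≤ Real.exp (8 * n) := Real.exp_le_exp.mpr (by linarith)
  have hXe : Real.exp (-(2 * n)) ≤ 1 / (2 : ℝ) ^ (2 * n) := by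
    rw [Real.exp_neg, one_div]
    refine inv_anti₀ (by positivity) ?_
    calc (2 : ℝ) ^ (2 * n) ≤ (Real.exp 1) ^ (2 * n) := pow_le_pow_left₀ (by norm_num) hexp1 _
      _ = Real.exp (2 * n) := by
          rw [← Real.exp_nat_mul]
          push_cast
          rw [mul_one]
  have hT0 : (0 : ℝ) < 2 ^ (4 * n) := by positivity
  have hX0 : (0 : ℝ) < 2 ^ (2 * n) := by positivity
  have ht0 : (0 : ℝ) < 1 / 2 ^ (4 * n) := by positivity
  have ht1 : (1 : ℝ) / 2 ^ (4 * n) < 1 := by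
    rw [div_lt_one hT0]
    linarith
  have hξ0 : (0 : ℝ) < 1 / 2 ^ (2 * n) := by positivity
  have hξ2 : (1 : ℝ) / 2 ^ (2 * n) ≤ 1 / 2 ^ 10 := one_div_le_one_div_of_le (by positivity) hX10
  have hξ1 : (1 : ℝ) / 2 ^ (2 * n) ≤ 1 := hξ2.trans (by norm_num)
  obtain ⟨h0, hl, hR, _, hhi⟩ := h
  have hsmall : (1 - 1 / (2 : ℝ) ^ (4 * n)) ^ (8 * n * 2 ^ (4 * n)) ≤ Real.exp (-(8 * n)) := by
    calc (1 - 1 / (2 : ℝ) ^ (4 * n)) ^ (8 * n * 2 ^ (4 * n))
        ≤ (Real.exp (-(1 / (2 : ℝ) ^ (4 * n)))) ^ (8 * n * 2 ^ (4 * n)) := by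
          refine pow_le_pow_left₀ (by linarith) ?_ _
          have := Real.add_one_le_exp (-(1 / (2 : ℝ) ^ (4 * n)))
          linarith
      _ = Real.exp (-(8 * n)) := by
          rw [← Real.exp_nat_mul, hsc]
          congr 1
          field_simp
  have hcond : (1 - 1 / (2 : ℝ) ^ (2 * n)) * (1 - 1 / 2 ^ (4 * n)) ^ (8 * n * 2 ^ (4 * n)) /
      (1 / 2 ^ (4 * n)) + 1 / 2 ^ (2 * n) * (1 - 1 / 2 ^ (4 * n)) ^ (8 * n * 2 ^ (4 * n)) ≤ 1 := by
    have hq0 : (0 : ℝ) ≤ (1 - 1 / 2 ^ (4 * n)) ^ (8 * n * 2 ^ (4 * n)) :=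
      pow_nonneg (by linarith) _
    set q := (1 - 1 / (2 : ℝ) ^ (4 * n)) ^ (8 * n * 2 ^ (4 * n)) with hq
    have e1 : q * 2 ^ (4 * n) ≤ 1 := by
      calc q * 2 ^ (4 * n) ≤ Real.exp (-(8 * n)) * Real.exp (8 * n) :=
            mul_le_mul hsmall hTe hT0.le (Real.exp_pos _).le
        _ = 1 := by rw [← Real.exp_add, neg_add_cancel, Real.exp_zero]
    have e2 : (1 - 1 / (2 : ℝ) ^ (2 * n)) * q / (1 / 2 ^ (4 * n)) =
        (1 - 1 / (2 : ℝ) ^ (2 * n)) * (q * 2 ^ (4 * n)) := by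
      rw [div_div_eq_mul_div, div_one]
      ring
    rw [e2]
    have e3 : 1 / (2 : ℝ) ^ (2 * n) * q ≤ 1 / 2 ^ (2 * n) * (q * 2 ^ (4 * n)) := by
      refine mul_le_mul_of_nonneg_left ?_ hξ0.le
      exact le_mul_of_one_le_right hq0 (by linarith)
    have e4 : (0 : ℝ) ≤ 1 - 1 / 2 ^ (2 * n) := by linarith
    nlinarith [mul_le_mul_of_nonneg_left e1 e4, mul_le_mul_of_nonneg_left e1 hξ0.le]
  -- the new value of p
  have hp' : nxt (1 / 2 ^ (4 * n)) (1 / 2 ^ (4 * n)) (1 / 2 ^ (2 * n)) (8 * n * 2 ^ (4 * n)) c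
      law none / 2 ^ (4 * n) +
      nxt (1 / 2 ^ (4 * n)) (1 / 2 ^ (4 * n)) (1 / 2 ^ (2 * n)) (8 * n * 2 ^ (4 * n)) c
      law (some true) = (1 - (law none / 2 ^ (4 * n) + law (some true))) ^ c := by
    have e := nxt_p (c := c) (ξ := 1 / 2 ^ (2 * n)) ht0 ht1 ht0 hs hl
    rw [one_div_mul_eq_div, one_div_mul_eq_div] at e
    exact e
  set p := law none / 2 ^ (4 * n) + law (some true) with hp
  have hL0 := h0 none
  have hR0 := h0 (some true)
  have hp0 : 0 ≤ p := add_nonneg (div_nonneg hL0 hT0.le) hR0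
  have hp1 : p ≤ 1 / 2 ^ 40 := hhi.trans (one_div_le_one_div_of_le (by positivity) hP40)
  have hp2 : p ≤ 1 / 9 := hp1.trans (by norm_num)
  have hlo' : Real.exp (-(36 * n)) ≤ (1 - p) ^ c := by
    have e1 : Real.exp (-(9 / 8 * p)) ≤ 1 - p := by
      rw [Real.exp_neg]
      have e2 := Real.add_one_le_exp (9 / 8 * p)
      calc (Real.exp (9 / 8 * p))⁻¹ ≤ (9 / 8 * p + 1)⁻¹ := inv_anti₀ (by linarith) e2
        _ ≤ 1 - p := by
            rw [inv_le_iff_one_le_mul₀ (by linarith)]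
            nlinarith
    calc Real.exp (-(36 * n)) ≤ Real.exp (c * (-(9 / 8 * p))) := by
          refine Real.exp_le_exp.mpr ?_
          nlinarith
      _ = (Real.exp (-(9 / 8 * p))) ^ c := Real.exp_nat_mul _ c
      _ ≤ (1 - p) ^ c := pow_le_pow_left₀ (Real.exp_pos _).le e1 c
  have hhi' : (1 - p) ^ c ≤ 1 / 2 ^ (8 * n) := by
    calc (1 - p) ^ c ≤ (Real.exp (-p)) ^ c := by
          refine pow_le_pow_left₀ (by linarith) ?_ c
          have := Real.add_one_le_exp (-p)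
          linarith
      _ = Real.exp (c * (-p)) := (Real.exp_nat_mul _ c).symm
      _ ≤ Real.exp (-(8 * n)) := by
          refine Real.exp_le_exp.mpr ?_
          linarith
      _ ≤ 1 / 2 ^ (8 * n) := by
          rw [Real.exp_neg, one_div]
          refine inv_anti₀ (by positivity) ?_
          calc (2 : ℝ) ^ (8 * n) ≤ (Real.exp 1) ^ (8 * n) :=
                pow_le_pow_left₀ (by norm_num) hexp1 _
            _ = Real.exp (8 * n) := by
                rw [← Real.exp_nat_mul]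
                push_cast
                rw [mul_one]
  have hrare := nxt_true (c := c) (ξ := 1 / 2 ^ (2 * n)) ht0 ht1 ht0 hξ0.le hs h0 hl
  rw [one_div_mul_eq_div (2 ^ (4 * n)) (law none)] at hrare
  change _ ≤ 1 / 2 ^ (2 * n) * (1 - p) ^ c + _ at hrare
  have hE : 2 ^ (8 * n * 2 ^ (4 * n)) * (1 - law none / 2) ^ c ≤
      1 / 2 ^ (2 * n) * (1 - p) ^ c := by
    have hL1 : law none ≤ 1 := by
      rw [Fintype.sum_option, Fintype.sum_bool] at hl
      have := h0 (some false)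
      linarith
    have e1 := InvStepAux.two_pow_le n
    have e2 := InvStepAux.half_le c hL0 hL1
    have e3 : c * law none = 2 ^ (4 * n) * (c * p - c * law (some true)) := by
      rw [hp]
      field_simp
      ring
    have e4 : c * law (some true) ≤ 1 / 100 * (c * p) := by
      have f1 : law (some true) ≤ 1 / 100 * p := by
        refine hR.trans (mul_le_mul_of_nonneg_right ?_ hp0)
        linarith
      calc c * law (some true) ≤ c * (1 / 100 * p) := mul_le_mul_of_nonneg_left f1 hc0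
        _ = _ := by ring
    have e5 : 2 ^ (4 * n) * (15.8 * n) ≤ c * law none := by
      rw [e3]
      refine mul_le_mul_of_nonneg_left ?_ hT0.le
      linarith
    exact InvStepAux.combine hnr hT20 e5 e1 e2 hXe hlo' (pow_nonneg (by linarith) _) hξ0.le
  refine ⟨fun v => nxt_nonneg ht0 ht1 ht0 hξ0.le hξ1 hs hcond h0 v, nxt_sum ht0 ht1 ht0 hs hl,
    ?_, ?_, ?_⟩
  · rw [hp']
    linarith
  · rw [hp']
    exact hlo'
  · rw [hp']
    exact hhi'


theorem exists_pow0 {n : ℕ} {p B : ℝ} (hp : 0 < p) (h2 : p ≤ 1 / 2 ^ (8 * n)) (hB : 1 / 2 ≤ B)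
    (hn : 5 ≤ n) : ∃ a : ℕ, B ≤ (2 : ℝ) ^ a * p ∧ (2 : ℝ) ^ a * p < 2 * B := by
  have hex : ∃ a : ℕ, B ≤ (2 : ℝ) ^ a * p := by
    obtain ⟨a, ha⟩ := pow_unbounded_of_one_lt (B / p) (by norm_num : (1 : ℝ) < 2)
    exact ⟨a, by rw [div_lt_iff₀ hp] at ha; exact ha.le⟩
  classical
  have hs := Nat.find_spec hex
  refine ⟨Nat.find hex, hs, ?_⟩
  rcases Nat.eq_zero_or_pos (Nat.find hex) with h0 | h0
  · rw [h0] at hs ⊢
    rw [pow_zero, one_mul] at hs ⊢
    have h3 : (1 : ℝ) / 2 ^ (8 * n) ≤ 1 / 2 ^ 2 := by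
      apply one_div_le_one_div_of_le (by norm_num)
      exact pow_le_pow_right₀ (by norm_num) (by omega)
    norm_num at h3
    have h4 : p ≤ 1 / 4 := h2.trans (by simpa using h3)
    linarith
  · have hm := Nat.find_min hex (m := Nat.find hex - 1) (by omega)
    push Not at hm
    have h5 : (2 : ℝ) ^ Nat.find hex = 2 * 2 ^ (Nat.find hex - 1) := by
      rw [← pow_succ']
      congr 1
      omega
    rw [h5]
    nlinarith

/-- the sizes of the levels -/
theorem exists_sizes0 {n : ℕ} (hn : 5 ≤ n) (k : ℕ) (law : Option Bool → ℝ) (hinv : Inv0 n law) :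
    ∃ (a : ℕ) (as : List ℕ), as.length = k ∧ (∀ a' ∈ as, a' ≤ 64 * n) ∧
      (2 : ℝ) ^ a * (law none / 2 ^ (4 * n) + law (some true)) < 32 * n ∧
      ∀ (X : Type) [Fintype X] [DecidableEq X] (D g : ℕ), 16 * D ≤ 2 ^ (4 * n) →
        4 * g ≤ Fintype.card X →
        Ex law (Wt (X := X) (1 / 2 ^ (4 * n)) (1 / 2 ^ (2 * n)) (8 * n * 2 ^ (4 * n)) (1 / 256) D g
          (pw (a :: as))) ≤ (9 / 10) ^ Fintype.card X := by
  classical
  have h2n : (1 : ℝ) / 2 ^ (2 * n) ≤ 1 / 32 := by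
    apply one_div_le_one_div_of_le (by norm_num)
    calc (32 : ℝ) = 2 ^ 5 := by norm_num
      _ ≤ 2 ^ (2 * n) := pow_le_pow_right₀ (by norm_num) (by omega)
  have hn5 : (5 : ℝ) ≤ n := by exact_mod_cast hn
  cases k with
  | zero =>
    obtain ⟨a, h1, h2⟩ := exists_pow0 (B := 1 / 2) hinv.pos hinv.hi le_rfl hn
    refine ⟨a, [], rfl, by simp, by linarith, ?_⟩
    intro X _ _ D g hD hg
    have hT : (64 : ℕ) ≤ 2 ^ (4 * n) := by
      calc 64 = 2 ^ 6 := by norm_num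
        _ ≤ 2 ^ (4 * n) := Nat.pow_le_pow_right (by norm_num) (by omega)
    have h16 : 16 ∣ 2 ^ (4 * n) := by
      have : (16 : ℕ) = 2 ^ 4 := by norm_num
      rw [this]
      exact pow_dvd_pow 2 (by omega)
    have hc : (((2 ^ (4 * n) : ℕ)) : ℝ) = 2 ^ (4 * n) := by push_cast; rfl
    have hc2 : (((2 ^ a : ℕ)) : ℝ) = 2 ^ a := by push_cast; rfl
    have hgp := good_prob (c := 2 ^ a) (D := D) (T := 2 ^ (4 * n)) (ξ := 1 / 2 ^ (2 * n)) hT h16 hD
      (by positivity) h2n (law := law) hinv.nonneg hinv.sum (by rw [hc]; exact hinv.rare)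
      (by rw [hc, hc2]; exact h1) (by rw [hc, hc2]; linarith)
    rw [hc] at hgp
    exact few_good (X := X) (c := 2 ^ a) hinv.nonneg hinv.sum hgp hg
  | succ k =>
    obtain ⟨a, h1, h2⟩ := exists_pow0 (B := 16 * n) hinv.pos hinv.hi (by linarith) hn
    have hc2 : (((2 ^ a : ℕ)) : ℝ) = 2 ^ a := by push_cast; rfl
    have hinv' := inv_step0 (c := 2 ^ a) hn hinv (by rw [hc2]; exact h1)
      (by rw [hc2]; linarith)
    obtain ⟨as, hlen, has, hX⟩ := exists_sizes hn k _ hinv'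
    refine ⟨a, as, hlen, has, by linarith, ?_⟩
    intro X _ _ D g hD hg
    refine le_trans (le_of_eq ?_) (hX X D g hD hg)
    have hne : pw as ≠ [] := by
      intro h
      have : (pw as).length = 0 := by rw [h]; rfl
      rw [pw, List.length_map] at this
      omega
    rw [← law_stage (G := Idx X (pw as)) (c := 2 ^ a) (smin := 8 * n * 2 ^ (4 * n))
      (t := 1 / 2 ^ (4 * n)) (t' := 1 / 2 ^ (4 * n)) (ξ := 1 / 2 ^ (2 * n)) law]
    show Ex law (Wt (X := X) _ _ _ _ D g (2 ^ a :: pw as)) = _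
    unfold Ex
    refine Finset.sum_congr rfl fun s _ => ?_
    rw [Wt_two _ _ _ _ _ _ _ _ hne]
    rfl

/-- the law of the first level satisfies the invariants -/
theorem inv_start0 {n : ℕ} (hn : 5 ≤ n) {q : ℝ} (hq0 : 0 < q) (hq1 : q < 1) {w : ℕ} (hw : 1 ≤ w)
    (hqw : q ^ w ≤ 1 / 2 ^ (8 * n)) :
    Inv0 n (nxt (1 - q) (1 / 2 ^ (4 * n)) 0 w w law0) ∧
      nxt (1 - q) (1 / 2 ^ (4 * n)) 0 w w law0 none / 2 ^ (4 * n) +
        nxt (1 - q) (1 / 2 ^ (4 * n)) 0 w w law0 (some true) = q ^ w := by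
  have h0 : ∀ v, (0 : ℝ) ≤ law0 v := by
    intro v; unfold law0; split_ifs <;> norm_num
  have h1 : ∑ v, law0 v = 1 := by
    unfold law0
    rw [Finset.sum_ite_eq']
    simp
  have hT : (0 : ℝ) < 1 / 2 ^ (4 * n) := by positivity
  have h1q0 : 0 < 1 - q := by linarith
  have h1q1 : 1 - q < 1 := by linarith
  obtain ⟨h2, h3⟩ := nxt_law0' (w := w) h1q0 h1q1 hw hT
  rw [sub_sub_cancel] at h2
  have e : nxt (1 - q) (1 / 2 ^ (4 * n)) 0 w w law0 none / 2 ^ (4 * n) +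
        nxt (1 - q) (1 / 2 ^ (4 * n)) 0 w w law0 (some true) = q ^ w := by
    rw [h2, h3]
    field_simp
    ring
  have hqw4 : q ^ w ≤ 1 / 2 ^ (4 * n) := hqw.trans (by
    apply one_div_le_one_div_of_le (by positivity)
    exact pow_le_pow_right₀ (by norm_num) (by omega))
  refine ⟨⟨fun v => nxt_nonneg h1q0 h1q1 hT le_rfl zero_le_one hw ?_ h0 v,
    nxt_sum h1q0 h1q1 hT hw h1, ?_, ?_, ?_⟩, e⟩
  · rw [sub_sub_cancel, sub_zero, one_mul, zero_mul, add_zero, div_le_one hT]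
    exact hqw4
  · rw [e, h3]
    positivity
  · rw [e]
    positivity
  · rw [e]
    exact hqw

end Pool.Agent.H530R3.Ph
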