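import Pool.Agent.H530R3.Ph.Sub
import Pool.Agent.H530R3.Ph.Sizes

/-!
# The probability that an algorithm with advice is right for all the inputs
-/

set_option autoImplicit false

namespace Pool.Agent.H530R3.Ph

open Finset H568R2 Pool.Agent.H676 Pool.Agent.H620R2.Gauge Pool.Agent.NPC Pool.Agent.H622R2
open Pool.Agent.H591R3.PHG (Idx Tr pw ber Ms val enc Wt law0 nxt IsSigPoly QF_comp final_numbers)
open Pool.Agent.H591R3.PHG.LangTrAux
open Pool.Agent.H530R3.Thr (biasedOracle pr qq qq_nonneg pr_nonneg pr_mono pr_le_one)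
open Pool.Agent.H628R3.RO (Loc)
open MeasureTheory

theorem QF_congr {I J : Type} {m : ℕ} {F : List Bool → (I → Bool) → Bool}
    {F' : List Bool → (J → Bool) → Bool} {a : I → Bool} {a' : J → Bool} (ℓ : ℕ)
    (h : ∀ y : List Bool, y.length ≤ ℓ → F y a = F' y a') :
    ∀ (k : ℕ) (b : Bool) (y : List Bool), y.length + k * (2 * m + 1) ≤ ℓ →
      QF m F k b y a = QF m F' k b y a' := by
  intro k
  induction k with
  | zero =>
    intro b y hy
    cases b <;> exact h y (by omega)
  | succ k ih =>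
    intro b y hy
    have hlen : ∀ w : List Bool, w.length ≤ m → (pairBits w y).length + k * (2 * m + 1) ≤ ℓ := by
      intro w hw
      rw [length_pairBits]
      have : (k + 1) * (2 * m + 1) = k * (2 * m + 1) + (2 * m + 1) := by ring
      omega
    cases b with
    | true =>
      simp only [QF, decide_eq_decide]
      exact exists_congr fun w => and_congr_right fun hw => by rw [ih false _ (hlen w hw)]
    | false =>
      simp only [QF, decide_eq_decide]
      exact forall_congr' fun w => forall_congr' fun hw => by rw [ih true _ (hlen w hw)]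

/-- the answer of the algorithm -/
def leafO (M : Alg) (y : List Bool) (A : Oracle) : Bool := decide (M.out A y = some [true])

theorem quant_QF {M : Alg} {A : Oracle} {V : List Bool → List Bool}
    (hV : ∀ x, M.out A x = some (V x)) (m : ℕ) :
    ∀ (k : ℕ) (b : Bool) (y : List Bool), Quant m V k b y ↔ QF m (leafO M) k b y A = true := by
  intro k
  induction k with
  | zero =>
    intro b y
    have : V y = [true] ↔ leafO M y A = true := by
      unfold leafO
      rw [hV, decide_eq_true_iff, Option.some.injEq]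
    cases b <;> exact this
  | succ k ih =>
    intro b y
    cases b with
    | true =>
      simp only [Quant, QF, decide_eq_true_eq]
      exact exists_congr fun w => and_congr_right fun _ => ih false _
    | false =>
      simp only [Quant, QF, decide_eq_true_eq]
      exact forall_congr' fun w => forall_congr' fun _ => ih true _

/-- the string of the root number `j` -/
def zr (m₀ K : ℕ) (j : Fin K) : List Bool := bitsOf m₀ j.val

theorem length_zr (m₀ K : ℕ) (j : Fin K) : (zr m₀ K j).length = m₀ :=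
  length_bitsOf _ _

theorem zr_inj {m₀ K : ℕ} (hK : K ≤ 2 ^ m₀) : Function.Injective (zr m₀ K) := by
  intro j j' hj
  exact Fin.ext (bitsOf_inj (lt_of_lt_of_le j.2 hK) (lt_of_lt_of_le j'.2 hK) hj)

/-- the advice `h` is right for all the inputs -/
def Right (M : Alg) (k : ℕ) (b : Bool) (as : List ℕ) (w m₀ K m : ℕ) (h : List Bool) : Set Oracle :=
  {A | ∀ j : Fin K, QF m (leafO M) k true (pairBits (enc as w (zr m₀ K j)) h) A ≠
    Tr (w :: pw as) (fun g : Idx (Fin K) (w :: pw as) =>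
      (A (pt (zr m₀ K) as w g) ^^ b)) j}

theorem loc_right (M : Alg) (k : ℕ) (b : Bool) (as : List ℕ) (w m₀ K m : ℕ) (h : List Bool) :
    ∃ t : ℕ, Loc {s | s.length ≤ t} (Right M k b as w m₀ K m h) := by
  obtain ⟨qb, hqb⟩ := Alg.out_local M
  set ℓ : ℕ := 2 * (2 * as.sum + as.length + 2 * w + 1 + m₀) + 1 + h.length + k * (2 * m + 1)
    with hℓ
  refine ⟨qb.eval ℓ + (m₀ + as.sum + w), fun A A' hAA => ?_⟩
  have h1 : ∀ y : List Bool, y.length ≤ ℓ → leafO M y A = leafO M y A' := by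
    intro y hy
    obtain ⟨Q, _, hQl, hQA⟩ := hqb A y
    unfold leafO
    rw [hQA A' fun s hs => (hAA s ?_).symm]
    have := (hQl s hs).trans (eval_mono qb hy)
    simp only [Set.mem_ofPred_eq]
    omega
  unfold Right
  simp only [Set.mem_ofPred_eq]
  refine forall_congr' fun j => ?_
  have h2 : QF m (leafO M) k true (pairBits (enc as w (zr m₀ K j)) h) A =
      QF m (leafO M) k true (pairBits (enc as w (zr m₀ K j)) h) A' := by
    refine QF_congr ℓ h1 k true _ ?_
    rw [length_pairBits, Pool.Agent.H591R3.PHG.enc_len, length_zr, hℓ]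
  have h3 : (fun g : Idx (Fin K) (w :: pw as) =>
      (A (pt (zr m₀ K) as w g) ^^ b)) = fun g => (A' (pt (zr m₀ K) as w g) ^^ b) := by
    funext g
    rw [hAA _ ?_]
    have := length_pt (zr m₀ K) m₀ (length_zr m₀ K) as w g
    simp only [Set.mem_ofPred_eq]
    omega
  rw [h2, h3]

variable {p : ℕ → unitInterval}

open Classical in
/-- the bound for one advice string -/
theorem one_advice (M : Alg) (k : ℕ) (b : Bool) {n u w m₀ N ℓ m K D g : ℕ} {as : List ℕ}
    (hn : 5 ≤ n) (hu : 8 * u ≤ n) (hk : as.length = k + 1) (hm₀ : K ≤ 2 ^ m₀)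
    (hN : m₀ + as.sum + w = N) (hD : 2 ^ (2 * u) * K ≤ D)
    (hw : 1 ≤ w) (hq0 : 0 < qq p N b) (hq1 : qq p N b < 1)
    (hqw : qq p N b ^ w ≤ 1 / 2 ^ (4 * n))
    (hlaw : Ex (nxt (1 - qq p N b) (1 / 2 ^ (4 * n)) 0 w w law0)
      (Wt (X := Fin K) (1 / 2 ^ (4 * n)) (1 / 2 ^ (2 * n)) (8 * n * 2 ^ (4 * n))
        (1 / 256) D g (pw as)) ≤ (9 / 10) ^ K)
    (hfin : (1 - 1 / 256 : ℝ) ^ g * (1 + 2 * (1 / 2 ^ (4 * n))) ^ D + (9 / 10) ^ K ≤
      3 * (1 / 2) ^ (2 ^ u))
    (h : List Bool)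
    (hℓ : 2 * (2 * as.sum + as.length + 2 * w + 1 + m₀) + 1 + h.length ≤ ℓ)
    (hM : M.p.eval (ℓ + k * (2 * m + 1)) ≤ 2 ^ (2 * u)) :
    pr p (Right M k b as w m₀ K m h) ≤
      k * (2 ^ (ℓ + k * (2 * m + 1) + 2) * (1 / 2) ^ (2 ^ (2 * u) + 1)) +
        3 * (1 / 2) ^ (2 ^ u) := by
  have hinj : Function.Injective (pt (zr m₀ K) as w) :=
    pt_inj (zr m₀ K) (zr_inj hm₀) m₀ (length_zr m₀ K) as w
  have hlen : ∀ g, (pt (zr m₀ K) as w g).length = N := by
    intro g
    rw [length_pt (zr m₀ K) m₀ (length_zr m₀ K) as w g, hN]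
  obtain ⟨t, ht⟩ := loc_right M k b as w m₀ K m h
  refine pr_le_of_fill b hinj hlen (List.finite_length_le Bool t) ht fun B => ?_
  set F : List Bool → (Idx (Fin K) (w :: pw as) → Bool) → Bool := fun y z =>
    leafO M y (fill b (pt (zr m₀ K) as w) B z) with hF
  have hFd : ∀ y : List Bool, y.length ≤ ℓ + k * (2 * m + 1) → DTr (2 ^ (2 * u)) (F y) := by
    intro y hy
    exact (dtr_fill_out b hinj B M y).mono ((eval_mono M.p hy).trans hM)
  have hcard : 2 ^ (2 * u) * Fintype.card (Fin K) ≤ D := by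
    rw [Fintype.card_fin]
    exact hD
  have hlen2 : (pw as).length = k + 1 := by
    rw [pw, List.length_map]; exact hk
  have h1 := main_leaf' (X := Fin K) (n := n) (u := u) (D := D)
    (g := g) hn hu hcard hq0 hq1 hw hqw k (pw as) hlen2 m ℓ F hFd
    (fun j => pairBits (enc as w (zr m₀ K j)) h) (fun j => by
      rw [length_pairBits, Pool.Agent.H591R3.PHG.enc_len, length_zr]
      exact hℓ) true
  refine le_trans (le_of_eq ?_) (h1.trans ?_)
  · unfold Ms
    congr 1
    funext z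
    have e1 : (fun g : Idx (Fin K) (w :: pw as) =>
        (fill b (pt (zr m₀ K) as w) B z (pt (zr m₀ K) as w g) ^^ b)) =
        val (fun _ => none) z := by
      funext g
      rw [fill_pos b hinj]
      simp [Pool.Agent.H591R3.PHG.val]
    have e2 : fill b (pt (zr m₀ K) as w) B z ∈ Right M k b as w m₀ K m h ↔
        ∀ j, (fun j => QF m F k true (pairBits (enc as w (zr m₀ K j)) h)) j z ≠
          Tr (w :: pw as) (val (fun _ => none) z) j := by
      unfold Right
      simp only [Set.mem_ofPred_eq]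
      refine forall_congr' fun j => ?_
      rw [e1, QF_comp m (leafO M) (fill b (pt (zr m₀ K) as w) B)]
    by_cases hz : fill b (pt (zr m₀ K) as w) B z ∈ Right M k b as w m₀ K m h
    · rw [if_pos hz]
      exact (if_pos (e2.1 hz)).symm
    · rw [if_neg hz]
      exact (if_neg fun h => hz (e2.2 h)).symm
  · linarith

/-- the oracles for which the parameters are good for the hard language -/
def Easy (b : Bool) (θ : Par) : Set Oracle :=
  {A | ∃ (V : List Bool → List Bool) (h : ℕ → List Bool),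
    (∀ x, θ.M.out A x = some (V x)) ∧ (∀ n, (h n).length ≤ θ.p'.eval n) ∧
    ∀ x, x ∈ lang θ.k b A ↔ Quant (θ.p.eval (pairBits x (h x.length)).length) V θ.k true
      (pairBits x (h x.length))}

theorem mem_easy {A : Oracle} {k : ℕ} {b : Bool} (h : IsSigPoly A k (lang k b A)) :
    ∃ θ, A ∈ Easy b θ := by
  obtain ⟨L', h, p', ⟨V, p, ⟨M, hM⟩, hL'⟩, hh, hx⟩ := h
  exact ⟨⟨M, p, k, p'⟩, V, h, hM, hh, fun x => (hx x).trans (hL' _)⟩

/-- the length of the inputs -/
def lx (as : List ℕ) (w m₀ : ℕ) : ℕ := 2 * as.sum + as.length + 2 * w + 1 + m₀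

theorem right_of_easy (b : Bool) (θ : Par) (as : List ℕ) (hk : as.length = θ.k + 1) (w m₀ K : ℕ)
    {A : Oracle} (hA : A ∈ Easy b θ) : ∃ c ∈ Finset.range (θ.p'.eval (lx as w m₀) + 1),
      ∃ h ∈ strsOf c,
        A ∈ Right θ.M θ.k b as w m₀ K (θ.p.eval (2 * lx as w m₀ + 1 + c)) h := by
  obtain ⟨V, h, hM, hh, hx⟩ := hA
  refine ⟨(h (lx as w m₀)).length, Finset.mem_range.2 (Nat.lt_succ_of_le (hh _)),
    h (lx as w m₀), mem_strsOf _, fun j => ?_⟩
  have hlen : (enc as w (zr m₀ K j)).length = lx as w m₀ := by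
    rw [Pool.Agent.H591R3.PHG.enc_len, length_zr]
    rfl
  have h1 := hx (enc as w (zr m₀ K j))
  rw [hlen, length_pairBits, hlen] at h1
  have h2 := mem_lang_iff A θ.k b as hk w (zr m₀ K) j
  have h3 := quant_QF hM (θ.p.eval (2 * lx as w m₀ + 1 + (h (lx as w m₀)).length)) θ.k true
    (pairBits (enc as w (zr m₀ K j)) (h (lx as w m₀)))
  rw [← h1, h2] at h3
  intro heq
  rw [← heq] at h3
  cases hb : QF (θ.p.eval (2 * lx as w m₀ + 1 + (h (lx as w m₀)).length)) (leafO θ.M) θ.k true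
    (pairBits (enc as w (zr m₀ K j)) (h (lx as w m₀))) A with
  | true => rw [hb] at h3; exact absurd (h3.2 rfl) (by simp)
  | false => rw [hb] at h3; exact absurd (h3.1 rfl) (by simp)

/-- the bound for the probability, from the bound for one advice string -/
theorem pr_easy_le (b : Bool) (θ : Par) (as : List ℕ) (hk : as.length = θ.k + 1) (w m₀ K : ℕ)
    {β : ℝ} (hβ : 0 ≤ β) (h : ∀ c ≤ θ.p'.eval (lx as w m₀), ∀ h : List Bool, h.length = c →
      pr p (Right θ.M θ.k b as w m₀ K (θ.p.eval (2 * lx as w m₀ + 1 + c)) h) ≤ β) :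
    pr p (Easy b θ) ≤ 2 ^ (2 * θ.p'.eval (lx as w m₀)) * β := by
  set p1 : ℕ := θ.p'.eval (lx as w m₀) with hp1
  have hsub : Easy b θ ⊆ ⋃ c ∈ Finset.range (p1 + 1), ⋃ h ∈ strsOf c,
      Right θ.M θ.k b as w m₀ K (θ.p.eval (2 * lx as w m₀ + 1 + c)) h := by
    intro A hA
    obtain ⟨c, hc, h, hh, hR⟩ := right_of_easy b θ as hk w m₀ K hA
    simp only [Set.mem_iUnion]
    exact ⟨c, hc, h, hh, hR⟩
  have h1 : ∀ c ∈ Finset.range (p1 + 1), pr p (⋃ h ∈ strsOf c,
      Right θ.M θ.k b as w m₀ K (θ.p.eval (2 * lx as w m₀ + 1 + c)) h) ≤ 2 ^ p1 * β := by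
    intro c hc
    rw [Finset.mem_range, Nat.lt_succ_iff] at hc
    have h2 : pr p (⋃ h ∈ strsOf c,
        Right θ.M θ.k b as w m₀ K (θ.p.eval (2 * lx as w m₀ + 1 + c)) h) ≤
        ∑ h ∈ strsOf c, pr p
          (Right θ.M θ.k b as w m₀ K (θ.p.eval (2 * lx as w m₀ + 1 + c)) h) := by
      unfold pr
      exact measureReal_biUnion_finset_le _ _
    refine h2.trans ?_
    have h3 : ∀ h' ∈ strsOf c, pr p
          (Right θ.M θ.k b as w m₀ K (θ.p.eval (2 * lx as w m₀ + 1 + c)) h') ≤ β := by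
      intro h' hh'
      refine h c hc h' ?_
      obtain ⟨i, _, rfl⟩ := Finset.mem_image.1 hh'
      exact length_bitsOf c i
    refine (Finset.sum_le_sum h3).trans ?_
    rw [Finset.sum_const, nsmul_eq_mul]
    refine mul_le_mul_of_nonneg_right ?_ hβ
    have h5 : (strsOf c).card ≤ 2 ^ p1 :=
      (card_strsOf c).trans (Nat.pow_le_pow_right (by norm_num) hc)
    exact_mod_cast h5
  have h4 : pr p (Easy b θ) ≤ ∑ c ∈ Finset.range (p1 + 1), pr p (⋃ h ∈ strsOf c,
      Right θ.M θ.k b as w m₀ K (θ.p.eval (2 * lx as w m₀ + 1 + c)) h) := by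
    refine (pr_mono hsub).trans ?_
    unfold pr
    exact measureReal_biUnion_finset_le _ _
  refine h4.trans ((Finset.sum_le_sum h1).trans ?_)
  rw [Finset.sum_const, Finset.card_range, nsmul_eq_mul]
  have h6 : ((p1 + 1 : ℕ) : ℝ) ≤ 2 ^ p1 := by
    have : p1 + 1 ≤ 2 ^ p1 := Nat.lt_two_pow_self
    exact_mod_cast this
  calc ((p1 + 1 : ℕ) : ℝ) * (2 ^ p1 * β) ≤ 2 ^ p1 * (2 ^ p1 * β) :=
        mul_le_mul_of_nonneg_right h6 (by positivity)
    _ = 2 ^ (2 * p1) * β := by rw [two_mul, pow_add]; ring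

end Pool.Agent.H530R3.Ph
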