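import Pool.Agent.H530R3.Ph.Event
import Pool.Agent.H530R3.Adv.Null

/-!
# The polynomial hierarchy is infinite relative to dense enough random oracles
-/

set_option autoImplicit false

namespace Pool.Agent.H530R3.Ph

open Finset H568R2 Pool.Agent.H676 Pool.Agent.H620R2.Gauge Pool.Agent.NPC Pool.Agent.H622R2
open Pool.Agent.H591R3.PHG (Idx Tr pw ber Ms enc Wt law0 nxt IsSig IsSigPoly final_numbers)
open Pool.Agent.H530R3.Thr (biasedOracle pr qq qq_nonneg pr_nonneg pr_mono pr_le_one lam)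
open Pool.Agent.H530R3.Adv (PolyBdd unbdd)
open MeasureTheory

/-- the bound for the length of the inputs -/
noncomputable def Lx (k : ℕ) : Polynomial ℕ := 2 * Polynomial.X + Polynomial.C (k + 2)

/-- the bound for the length of the inputs with advice -/
noncomputable def L0 (θ : Par) : Polynomial ℕ := 2 * Lx θ.k + 1 + θ.p'.comp (Lx θ.k)

/-- the bound for the length of all strings -/
noncomputable def Lt (θ : Par) : Polynomial ℕ :=
  L0 θ + Polynomial.C θ.k * (2 * θ.p.comp (L0 θ) + 1)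

/-- the polynomial for the final bound -/
noncomputable def PP (θ : Par) : Polynomial ℕ :=
  2 * θ.p'.comp (Lx θ.k) + Lt θ + 2 + θ.M.p.comp (Lt θ) + Polynomial.X

theorem eval_Lx (k n : ℕ) : (Lx k).eval n = 2 * n + (k + 2) := by
  simp [Lx]

theorem eval_L0 (θ : Par) (n : ℕ) : (L0 θ).eval n =
    2 * (Lx θ.k).eval n + 1 + θ.p'.eval ((Lx θ.k).eval n) := by
  simp [L0, Polynomial.eval_comp]

theorem eval_Lt (θ : Par) (n : ℕ) : (Lt θ).eval n =
    (L0 θ).eval n + θ.k * (2 * θ.p.eval ((L0 θ).eval n) + 1) := by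
  simp [Lt, Polynomial.eval_comp]

theorem eval_PP (θ : Par) (n : ℕ) : (PP θ).eval n =
    2 * θ.p'.eval ((Lx θ.k).eval n) + (Lt θ).eval n + 2 + θ.M.p.eval ((Lt θ).eval n) + n := by
  simp [PP, Polynomial.eval_comp]

theorem cancel (x y N : ℕ) : (2 : ℝ) ^ x * (2 ^ y * (1 / 2) ^ (x + y + N)) = (1 / 2) ^ N := by
  have h1 : ∀ x : ℕ, (2 : ℝ) ^ x * (1 / 2) ^ x = 1 := by
    intro x
    rw [← mul_pow]
    norm_num
  calc (2 : ℝ) ^ x * (2 ^ y * (1 / 2) ^ (x + y + N)) =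
        (2 ^ x * (1 / 2) ^ x) * (2 ^ y * (1 / 2) ^ y) * (1 / 2) ^ N := by
        rw [pow_add, pow_add]
        ring
    _ = (1 / 2) ^ N := by rw [h1, h1, one_mul, one_mul]

variable {p : ℕ → unitInterval}

/-- the bound, when the sizes fit -/
theorem pr_easy (b : Bool) (θ : Par) {n u w m₀ N K D g : ℕ} {as : List ℕ}
    (hn : 5 ≤ n) (hu : 8 * u ≤ n) (hk : as.length = θ.k + 1) (hm₀ : K ≤ 2 ^ m₀)
    (hN : m₀ + as.sum + w = N) (hD : 2 ^ (2 * u) * K ≤ D)
    (hw : 1 ≤ w) (hq0 : 0 < qq p N b) (hq1 : qq p N b < 1)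
    (hqw : qq p N b ^ w ≤ 1 / 2 ^ (4 * n))
    (hlaw : Ex (nxt (1 - qq p N b) (1 / 2 ^ (4 * n)) 0 w w law0)
      (Wt (X := Fin K) (1 / 2 ^ (4 * n)) (1 / 2 ^ (2 * n)) (8 * n * 2 ^ (4 * n))
        (1 / 256) D g (pw as)) ≤ (9 / 10) ^ K)
    (hfin : (1 - 1 / 256 : ℝ) ^ g * (1 + 2 * (1 / 2 ^ (4 * n))) ^ D + (9 / 10) ^ K ≤
      3 * (1 / 2) ^ (2 ^ u))
    (hP : (PP θ).eval N ≤ 2 ^ u) : pr p (Easy b θ) ≤ (θ.k + 1) * (1 / 2) ^ N := by
  have hlx : lx as w m₀ ≤ (Lx θ.k).eval N := by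
    unfold lx
    rw [eval_Lx, hk]
    omega
  set β : ℝ := (θ.k + 1) * (2 ^ ((Lt θ).eval N + 2) * (1 / 2) ^ (2 ^ u)) with hβ
  have hβ0 : 0 ≤ β := by positivity
  have hone : ∀ c ≤ θ.p'.eval (lx as w m₀), ∀ h : List Bool, h.length = c →
      pr p (Right θ.M θ.k b as w m₀ K (θ.p.eval (2 * lx as w m₀ + 1 + c)) h) ≤ β := by
    intro c hc h hh
    have hc2 : c ≤ θ.p'.eval ((Lx θ.k).eval N) := hc.trans (eval_mono _ hlx)
    have hm : θ.p.eval (2 * lx as w m₀ + 1 + c) ≤ θ.p.eval ((L0 θ).eval N) := by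
      apply eval_mono
      rw [eval_L0]
      omega
    have hℓt : (L0 θ).eval N + θ.k * (2 * θ.p.eval (2 * lx as w m₀ + 1 + c) + 1) ≤
        (Lt θ).eval N := by
      rw [eval_Lt]
      have : θ.k * (2 * θ.p.eval (2 * lx as w m₀ + 1 + c) + 1) ≤
        θ.k * (2 * θ.p.eval ((L0 θ).eval N) + 1) := Nat.mul_le_mul_left _ (by omega)
      omega
    have h1 := one_advice (p := p) θ.M θ.k b (ℓ := (L0 θ).eval N)
      (m := θ.p.eval (2 * lx as w m₀ + 1 + c)) hn hu hk hm₀ hN hD hw hq0 hq1 hqw hlaw hfin h (by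
        rw [eval_L0, hh]
        have : 2 * as.sum + as.length + 2 * w + 1 + m₀ = lx as w m₀ := rfl
        rw [this]
        omega) (by
        refine (eval_mono θ.M.p hℓt).trans ?_
        have h2 : θ.M.p.eval ((Lt θ).eval N) ≤ (PP θ).eval N := by
          rw [eval_PP]
          omega
        refine h2.trans (hP.trans (Nat.pow_le_pow_right (by norm_num) (by omega))))
    refine h1.trans ?_
    have h3 : (2 : ℝ) ^ ((L0 θ).eval N + θ.k * (2 * θ.p.eval (2 * lx as w m₀ + 1 + c) + 1) + 2) ≤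
        2 ^ ((Lt θ).eval N + 2) := pow_le_pow_right₀ (by norm_num) (by omega)
    have h4 : ((1 : ℝ) / 2) ^ (2 ^ (2 * u) + 1) ≤ (1 / 2) ^ (2 ^ u) := by
      apply pow_le_pow_of_le_one (by norm_num) (by norm_num)
      have : 2 ^ u ≤ 2 ^ (2 * u) := Nat.pow_le_pow_right (by norm_num) (by omega)
      omega
    have h5 : (2 : ℝ) ^ ((L0 θ).eval N + θ.k * (2 * θ.p.eval (2 * lx as w m₀ + 1 + c) + 1) + 2) *
        (1 / 2) ^ (2 ^ (2 * u) + 1) ≤ 2 ^ ((Lt θ).eval N + 2) * (1 / 2) ^ (2 ^ u) :=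
      mul_le_mul h3 h4 (by positivity) (by positivity)
    have h6 : (3 : ℝ) * (1 / 2) ^ (2 ^ u) ≤ 2 ^ ((Lt θ).eval N + 2) * (1 / 2) ^ (2 ^ u) := by
      refine mul_le_mul_of_nonneg_right ?_ (by positivity)
      calc (3 : ℝ) ≤ 2 ^ 2 := by norm_num
        _ ≤ 2 ^ ((Lt θ).eval N + 2) := pow_le_pow_right₀ (by norm_num) (by omega)
    have h7 := mul_le_mul_of_nonneg_left h5 (Nat.cast_nonneg (α := ℝ) θ.k)
    rw [hβ, add_mul, one_mul]
    linarith
  refine (pr_easy_le b θ as hk w m₀ K hβ0 hone).trans ?_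
  have h1 : 2 * θ.p'.eval (lx as w m₀) + ((Lt θ).eval N + 2) + N ≤ 2 ^ u := by
    refine le_trans ?_ hP
    rw [eval_PP]
    have : θ.p'.eval (lx as w m₀) ≤ θ.p'.eval ((Lx θ.k).eval N) := eval_mono _ hlx
    omega
  have h2 : (2 : ℝ) ^ (2 * θ.p'.eval (lx as w m₀)) * (2 ^ ((Lt θ).eval N + 2) *
      (1 / 2) ^ (2 ^ u)) ≤ (1 / 2) ^ N := by
    have h3 : ((1 : ℝ) / 2) ^ (2 ^ u) ≤
        (1 / 2) ^ (2 * θ.p'.eval (lx as w m₀) + ((Lt θ).eval N + 2) + N) :=
      pow_le_pow_of_le_one (by norm_num) (by norm_num) h1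
    calc (2 : ℝ) ^ (2 * θ.p'.eval (lx as w m₀)) * (2 ^ ((Lt θ).eval N + 2) *
        (1 / 2) ^ (2 ^ u)) ≤ 2 ^ (2 * θ.p'.eval (lx as w m₀)) * (2 ^ ((Lt θ).eval N + 2) *
        (1 / 2) ^ (2 * θ.p'.eval (lx as w m₀) + ((Lt θ).eval N + 2) + N)) := by
          refine mul_le_mul_of_nonneg_left (mul_le_mul_of_nonneg_left h3 ?_) ?_ <;> positivity
      _ = (1 / 2) ^ N := cancel _ _ _
  calc (2 : ℝ) ^ (2 * θ.p'.eval (lx as w m₀)) * β =
        (θ.k + 1) * (2 ^ (2 * θ.p'.eval (lx as w m₀)) * (2 ^ ((Lt θ).eval N + 2) *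
          (1 / 2) ^ (2 ^ u))) := by rw [hβ]; ring
    _ ≤ (θ.k + 1) * (1 / 2) ^ N := mul_le_mul_of_nonneg_left h2 (by positivity)

/-- the polynomial for the density -/
noncomputable def RR (θ : Par) : Polynomial ℕ := (2 * PP θ) ^ (8 * (64 * θ.k + 64))

/-- the choice of the parameters -/
theorem pr_easy_small (b : Bool) (θ : Par) {N : ℕ} (hlam : (((RR θ).eval N : ℕ) : ℝ) < lam p N)
    (hq2 : qq p N b ≤ 1 / 2) (hlq : lam p N = 2 ^ N * qq p N b) :
    pr p (Easy b θ) ≤ (θ.k + 1) * (1 / 2) ^ N := by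
  classical
  set q := qq p N b with hq
  set C : ℕ := 64 * θ.k + 64 with hC
  have hPP2 : 2 ≤ (PP θ).eval N := by
    rw [eval_PP]
    omega
  set u : ℕ := Nat.clog 2 ((PP θ).eval N) with hu
  have hu1 : 1 ≤ u := Nat.clog_pos (by norm_num) hPP2
  have hPu : (PP θ).eval N ≤ 2 ^ u := Nat.le_pow_clog (by norm_num) _
  have hPu2 : 2 ^ u ≤ 2 * (PP θ).eval N := by
    have h1 : 2 ^ (u - 1) < (PP θ).eval N := Nat.pow_pred_clog_lt_self (by norm_num) (by omega)
    have h2 : 2 ^ u = 2 * 2 ^ (u - 1) := by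
      rw [← pow_succ']
      congr 1
      omega
    omega
  set n : ℕ := 8 * u with hn
  have hn5 : 5 ≤ n := by omega
  -- the density is large
  have hlam2 : (2 : ℝ) ^ (C * n) ≤ lam p N := by
    refine le_trans ?_ hlam.le
    have h1 : 2 ^ (C * n) ≤ (RR θ).eval N := by
      unfold RR
      rw [Polynomial.eval_pow, Polynomial.eval_mul, Polynomial.eval_ofNat]
      calc 2 ^ (C * n) = (2 ^ u) ^ (8 * C) := by
            rw [← pow_mul]
            congr 1
            rw [hn]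
            ring
        _ ≤ (2 * (PP θ).eval N) ^ (8 * C) := Nat.pow_le_pow_left hPu2 _
    exact_mod_cast h1
  have hq0 : 0 < q := by
    by_contra hcon
    push Not at hcon
    have h1 : lam p N ≤ 0 := by
      rw [hlq]
      exact mul_nonpos_of_nonneg_of_nonpos (by positivity) hcon
    have h2 : (0 : ℝ) < 2 ^ (C * n) := by positivity
    linarith
  have hq1 : q < 1 := by linarith
  -- the size of the groups
  have hex : ∃ w : ℕ, q ^ (w + 1) ≤ 1 / 2 ^ (8 * n) := by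
    refine ⟨8 * n - 1, ?_⟩
    have h1 : 8 * n - 1 + 1 = 8 * n := by omega
    rw [h1, ← one_div_pow]
    exact pow_le_pow_left₀ hq0.le hq2 _
  set w₀ := Nat.find hex with hw₀
  have hws : q ^ (w₀ + 1) ≤ 1 / 2 ^ (8 * n) := Nat.find_spec hex
  have hw8 : w₀ + 1 ≤ 8 * n := by
    have h2 : w₀ ≤ 8 * n - 1 := by
      refine Nat.find_min' hex ?_
      have h1 : 8 * n - 1 + 1 = 8 * n := by omega
      rw [h1, ← one_div_pow]
      exact pow_le_pow_left₀ hq0.le hq2 _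
    omega
  obtain ⟨hinv, hp0⟩ := inv_start0 hn5 hq0 hq1 (w := w₀ + 1) (by omega) hws
  obtain ⟨a, as, hlen, has, ha, hX⟩ := exists_sizes0 hn5 θ.k _ hinv
  rw [hp0] at ha
  have hsum : as.sum ≤ 64 * (n * θ.k) := by
    have h1 := Pool.Agent.H591R3.PHG.sum_le n as has
    rw [hlen] at h1
    calc as.sum ≤ θ.k * (64 * n) := h1
      _ = 64 * (n * θ.k) := by ring
  have hCn : C * n = 64 * (n * θ.k) + 64 * n := by
    rw [hC]
    ring
  have h32 : (32 * (n : ℝ)) ≤ 2 ^ (n + 5) := by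
    have h1 : n ≤ 2 ^ n := Nat.lt_two_pow_self.le
    have h2 : 32 * n ≤ 2 ^ (n + 5) := by
      rw [pow_add]
      omega
    exact_mod_cast h2
  have hNC : C * n ≤ N := by
    have h1 : (2 : ℝ) ^ (C * n) ≤ 2 ^ N := by
      refine hlam2.trans ?_
      rw [hlq]
      have : (2 : ℝ) ^ N * q ≤ 2 ^ N * 1 := mul_le_mul_of_nonneg_left hq1.le (by positivity)
      linarith
    exact (pow_le_pow_iff_right₀ (by norm_num : (1 : ℝ) < 2)).1 h1
  have hfit : a + as.sum + (w₀ + 1) + (u + 11) ≤ N := by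
    rcases Nat.eq_zero_or_pos w₀ with h0 | h0
    · rw [h0, zero_add, pow_one] at ha
      have h1 : (2 : ℝ) ^ (a + C * n) < 2 ^ (n + 5 + N) := by
        rw [pow_add]
        calc (2 : ℝ) ^ a * 2 ^ (C * n) ≤ 2 ^ a * (2 ^ N * q) :=
              mul_le_mul_of_nonneg_left (hlam2.trans hlq.le) (by positivity)
          _ = 2 ^ N * (2 ^ a * q) := by ring
          _ < 2 ^ N * (32 * n) := mul_lt_mul_of_pos_left ha (by positivity)
          _ ≤ 2 ^ N * 2 ^ (n + 5) := mul_le_mul_of_nonneg_left h32 (by positivity)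
          _ = 2 ^ (n + 5 + N) := by rw [pow_add (2 : ℝ) (n + 5) N]; ring
      have h2 : a + C * n < n + 5 + N := (pow_lt_pow_iff_right₀ (by norm_num : (1 : ℝ) < 2)).1 h1
      omega
    · have h1 := Nat.find_min hex (m := 0) (by rw [← hw₀]; exact h0)
      have h2 := Nat.find_min hex (m := w₀ - 1) (by rw [← hw₀]; omega)
      push Not at h1 h2
      rw [zero_add, pow_one] at h1
      have h3 : w₀ - 1 + 1 = w₀ := by omega
      rw [h3] at h2
      have h4 : (1 : ℝ) / 2 ^ (16 * n) ≤ q ^ (w₀ + 1) := by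
        rw [pow_succ]
        have e : (1 : ℝ) / 2 ^ (16 * n) = 1 / 2 ^ (8 * n) * (1 / 2 ^ (8 * n)) := by
          rw [one_div_mul_one_div, ← pow_add]
          congr 2
          ring
        rw [e]
        exact mul_le_mul h2.le h1.le (by positivity) (by positivity)
      have h5 : (2 : ℝ) ^ a < 2 ^ (17 * n + 5) := by
        have h6 : (2 : ℝ) ^ a * (1 / 2 ^ (16 * n)) < 2 ^ (n + 5) :=
          lt_of_le_of_lt (mul_le_mul_of_nonneg_left h4 (by positivity)) (lt_of_lt_of_le ha h32)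
        rw [mul_one_div, div_lt_iff₀ (by positivity), ← pow_add] at h6
        refine lt_of_lt_of_le h6 (le_of_eq ?_)
        congr 1
        ring
      have h6 : a < 17 * n + 5 := (pow_lt_pow_iff_right₀ (by norm_num : (1 : ℝ) < 2)).1 h5
      omega
  set m₀ : ℕ := N - (a + as.sum + (w₀ + 1)) with hm₀
  have hmu : u + 11 ≤ m₀ := by omega
  refine pr_easy (p := p) b θ (n := n) (u := u) (w := w₀ + 1) (m₀ := m₀) (N := N)
    (K := 2 ^ (u + 11)) (D := 2 ^ (3 * u + 11)) (g := 2 ^ (u + 9)) (as := a :: as) hn5 le_rfl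
    (by rw [List.length_cons, hlen]) (Nat.pow_le_pow_right (by norm_num) hmu) ?_ ?_ (by omega)
    hq0 hq1 (hws.trans ?_) ?_ (final_numbers hn5 le_rfl) hPu
  · rw [List.sum_cons]
    omega
  · rw [← pow_add]
    exact Nat.pow_le_pow_right (by norm_num) (by omega)
  · apply one_div_le_one_div_of_le (by positivity)
    exact pow_le_pow_right₀ (by norm_num) (by omega)
  · have h1 := hX (Fin (2 ^ (u + 11))) (2 ^ (3 * u + 11)) (2 ^ (u + 9)) (by
      calc 16 * 2 ^ (3 * u + 11) = 2 ^ (3 * u + 15) := by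
            rw [show 3 * u + 15 = 3 * u + 11 + 4 from rfl, pow_add _ (3 * u + 11) 4]; ring
        _ ≤ 2 ^ (4 * n) := Nat.pow_le_pow_right (by norm_num) (by omega)) (by
      rw [Fintype.card_fin]
      have : 2 ^ (u + 11) = 4 * 2 ^ (u + 9) := by
        rw [show u + 11 = u + 9 + 2 from rfl, pow_add _ (u + 9) 2]; ring
      omega)
    rw [Fintype.card_fin] at h1
    exact h1

/-- the bit `b` is the less likely one for lengths with large densities -/
def Heavy (p : ℕ → unitInterval) (b : Bool) : Prop :=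
  ∀ (R : Polynomial ℕ) (n0 : ℕ), ∃ N ≥ n0, ((R.eval N : ℕ) : ℝ) < lam p N ∧ qq p N b ≤ 1 / 2 ∧
    lam p N = 2 ^ N * qq p N b

theorem exists_heavy_bit (h : ¬ PolyBdd (lam p)) : ∃ b, Heavy p b := by
  by_contra hcon
  push Not at hcon
  have h1 := hcon true
  have h2 := hcon false
  unfold Heavy at h1 h2
  push Not at h1 h2
  obtain ⟨R1, n1, h1⟩ := h1
  obtain ⟨R2, n2, h2⟩ := h2
  obtain ⟨N, hN, hR⟩ := unbdd h (R1 + R2) (max n1 n2)
  rw [Polynomial.eval_add] at hR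
  push_cast at hR
  have hR1 : (0 : ℝ) ≤ ((R1.eval N : ℕ) : ℝ) := Nat.cast_nonneg _
  have hR2 : (0 : ℝ) ≤ ((R2.eval N : ℕ) : ℝ) := Nat.cast_nonneg _
  rcases le_total (p N : ℝ) (1 / 2) with hp | hp
  · refine h1 N ((le_max_left _ _).trans hN) (by linarith) ?_ ?_
    · simpa [qq] using hp
    · unfold lam qq
      rw [min_eq_left (by linarith)]
      simp
  · refine h2 N ((le_max_right _ _).trans hN) (by linarith) ?_ ?_
    · simp only [qq, Bool.false_eq_true, if_false]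
      linarith
    · unfold lam qq
      rw [min_eq_right (by linarith)]
      simp

theorem easy_null {b : Bool} (h : Heavy p b) (θ : Par) : biasedOracle p (Easy b θ) = 0 := by
  have h1 : ∀ n0 : ℕ, pr p (Easy b θ) ≤ (θ.k + 1) * (1 / 2) ^ n0 := by
    intro n0
    obtain ⟨N, hN, h2, h3, h4⟩ := h (RR θ) n0
    refine (pr_easy_small b θ h2 h3 h4).trans ?_
    exact mul_le_mul_of_nonneg_left (pow_le_pow_of_le_one (by norm_num) (by norm_num) hN)
      (by positivity)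
  have h2 : pr p (Easy b θ) ≤ 0 := by
    have h3 := (tendsto_pow_atTop_nhds_zero_of_lt_one (r := (1 / 2 : ℝ)) (by norm_num)
      (by norm_num)).const_mul ((θ.k : ℝ) + 1)
    rw [mul_zero] at h3
    exact ge_of_tendsto' h3 h1
  have h3 : pr p (Easy b θ) = 0 := le_antisymm h2 (pr_nonneg _)
  unfold pr at h3
  rwa [measureReal_eq_zero_iff] at h3

/-- the polynomial hierarchy is infinite -/
theorem ae_infinite (h : ¬ PolyBdd (lam p)) : ∀ᵐ A ∂(biasedOracle p), ∀ k : ℕ,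
    ∃ L : Set (List Bool), IsSig A (k + 1) L ∧ ¬ IsSigPoly A k L := by
  obtain ⟨b, hb⟩ := exists_heavy_bit h
  have h1 : ∀ᵐ A ∂(biasedOracle p), ∀ θ : Par, A ∉ Easy b θ := by
    rw [ae_all_iff]
    intro θ
    rw [ae_iff]
    have : {A : Oracle | ¬ A ∉ Easy b θ} = Easy b θ := by
      ext R; simp
    rw [this]
    exact easy_null hb θ
  filter_upwards [h1] with A hA k
  refine ⟨lang k b A, lang_sig A k b, fun hL => ?_⟩
  obtain ⟨θ, hθ⟩ := mem_easy hL
  exact hA θ hθ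

end Pool.Agent.H530R3.Ph
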