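import Pool.Agent.H530R3.Ph.Leaf

/-!
# The hard language: all questions for one input have the same length
-/

set_option autoImplicit false

namespace Pool.Agent.H530R3.Ph

open Finset H568R2 Pool.Agent.H676 Pool.Agent.H620R2.Gauge Pool.Agent.NPC Pool.Agent.H622R2
open Pool.Agent.H591R3.PHG Pool.Agent.H591R3.PHG.LangSig

/-- the string number `l` of the group of the node `q` -/
def ptx (w : ℕ) (q : List Bool) (l : ℕ) : List Bool :=
  q ++ (List.replicate l true ++ List.replicate (w - l) false)

/-- All the bits of the oracle in the group of `q` are `b`. -/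
def bitv (A : Oracle) (b : Bool) (w : ℕ) (q : List Bool) : Bool :=
  decide (∀ l < w, A (ptx w q l) = b)

/-- The hard language for `k` quantifiers: `k + 1` numbers (in unary notation) and a number `w` are
read, the rest of the input is the string of the root. -/
def lang (k : ℕ) (b : Bool) (A : Oracle) : Set (List Bool) :=
  {x | ((parse (k + 1) x).1.foldr up (bitv A b (unpair (parse (k + 1) x).2).1.length))
    (unpair (parse (k + 1) x).2).2 = false}

theorem quant_gen (V : List Bool → List Bool) (β : List Bool → List Bool → Bool) (K m : ℕ)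
    (e : Bool) (x : List Bool)
    (hV : ∀ y, strip K y = x → (V y = [true] ↔ β (dec K y).1 (dec K y).2 = e)) :
    ∀ (j i : ℕ) (b : Bool) (u r q : List Bool), i + j = K → dec i u = (r, q) → strip i u = x →
      r.length ≤ m → bot b j = !e →
      (Quant m V j b u ↔ ((parse j r).1.foldr up (β (parse j r).2)) q = !b) := by
  intro j
  induction j with
  | zero =>
    intro i b u r q hi hd hs hm hb
    have hi : i = K := by omega
    subst hi
    have hb' : (!b) = e := by
      rw [bot] at hb
      rw [hb, Bool.not_not]
    have h1 := hV u hs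
    rw [hd] at h1
    rw [hb']
    cases b <;> exact h1
  | succ j ih =>
    intro i b u r q hi hd hs hm hb
    have hl := length_unpair r
    have key : ∀ (w : List Bool), (Quant m V j (!b) (pairBits w u) ↔
        ((parse j (unpair r).2).1.foldr up
          (β (parse j (unpair r).2).2)) (q ++ fit (unpair r).1 w) = b) := by
      intro w
      have h1 := ih (i + 1) (!b) (pairBits w u) (unpair r).2 (q ++ fit (unpair r).1 w)
        (by omega) (by simp only [dec, unpair_pairBits, hd])
        (by simp only [strip, unpair_pairBits]; exact hs) (by omega) hb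
      rw [Bool.not_not] at h1
      exact h1
    have hfold : ((parse (j + 1) r).1.foldr up
        (β (parse (j + 1) r).2)) q =
        decide (∀ i < 2 ^ (unpair r).1.length, ((parse j (unpair r).2).1.foldr up
          (β (parse j (unpair r).2).2))
            (q ++ bitsOf (unpair r).1.length i) = false) := rfl
    rw [hfold]
    cases b with
    | true =>
      have key' : ∀ w : List Bool, (Quant m V j false (pairBits w u) ↔ _) := key
      rw [Quant]
      simp only [key']
      rw [exists_fit (fun w => ((parse j (unpair r).2).1.foldr up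
          (β (parse j (unpair r).2).2)) (q ++ w) = true) (unpair r).1 rfl
          (by omega)]
      simp
    | false =>
      have key' : ∀ w : List Bool, (Quant m V j true (pairBits w u) ↔ _) := key
      rw [Quant]
      simp only [key']
      rw [forall_fit (fun w => ((parse j (unpair r).2).1.foldr up
          (β (parse j (unpair r).2).2)) (q ++ w) = false) (unpair r).1 rfl
          (by omega)]
      simp

theorem foldr_up_shift (f g : List Bool → Bool) (x z : List Bool)
    (h : ∀ s, f (x ++ s) = g (z ++ s)) : ∀ (as : List ℕ) (s : List Bool),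
    (as.foldr up f) (x ++ s) = (as.foldr up g) (z ++ s) := by
  intro as
  induction as with
  | nil => exact h
  | cons a as ih =>
    intro s
    show decide (∀ i < 2 ^ a, (as.foldr up f) ((x ++ s) ++ bitsOf a i) = false) =
      decide (∀ i < 2 ^ a, (as.foldr up g) ((z ++ s) ++ bitsOf a i) = false)
    congr 1
    apply propext
    refine forall₂_congr fun i _ => ?_
    rw [List.append_assoc, List.append_assoc, ih]

/-- the address -/
def adr (k : ℕ) (y : List Bool) : List Bool :=
  (unpair (dec k y).1).2 ++ (dec k y).2.drop (strip k y).length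

/-- the number of the strings of a group -/
def wid (k : ℕ) (y : List Bool) : ℕ := (unpair (dec k y).1).1.length

/-- the questions to the oracle -/
def Qs (k : ℕ) (y : List Bool) : List (List Bool) :=
  (List.range (wid k y)).map (fun l => adr k y ++
    (List.replicate (min l (wid k y)) true ++ List.replicate (wid k y - l) false))

theorem u_wid (k : ℕ) : UPoly (wid k) :=
  UPoly.length (Poly.fst (poly_unpair.comp (Poly.fst (poly_dec k))))

theorem p_drop' {α : Type} [TEnc α] {v : α → List Bool} {n : α → ℕ} (hv : Poly v)
    (hn : UPoly n) : Poly (fun a => (v a).drop (n a)) := by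
  obtain ⟨r, hr⟩ := hv.sz_le
  have e : ∀ (k : ℕ) (s : List Bool), (fun s : List Bool => s.tail)^[k] s = s.drop k := by
    intro k
    induction k with
    | zero => intro s; rfl
    | succ k ih =>
      intro s
      rw [Function.iterate_succ_apply, ih]
      rw [List.drop_tail]
  refine (Poly.iterLen (l := fun a => List.replicate (n a) ()) (s := v)
    (F := fun (_ : α) (s : List Bool) => s.tail) hn hv (Poly.tail (Poly.snd Poly.id)) r
    ?_).congr fun a => ?_
  · intro a k _
    rw [e]
    exact (Poly.sz_drop_le _ _).trans (hr a)
  · rw [List.length_replicate]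
    exact e _ _

theorem p_rep {α : Type} [TEnc α] {n : α → ℕ} (hn : UPoly n) (b : Bool) :
    Poly (fun a => List.replicate (n a) b) :=
  (NPC.Poly.map (F := fun (_ : α) (_ : Unit) => b) hn (NPC.Poly.const b)).congr fun a => by simp

theorem poly_adr (k : ℕ) : Poly (adr k) :=
  Poly.append (Poly.snd (poly_unpair.comp (Poly.fst (poly_dec k))))
    (p_drop' (Poly.snd (poly_dec k)) (UPoly.length (poly_strip k)))

theorem poly_Qs (k : ℕ) : Poly (Qs k) := by
  have h1 : UPoly (fun p : List Bool × ℕ => wid k p.1) := (u_wid k).comp (Poly.fst Poly.id)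
  have h2 : UPoly (fun p : List Bool × ℕ => min p.2 (wid k p.1)) :=
    UPoly.of_le (Poly.min (Poly.snd Poly.id) h1.toPoly) h1 (fun p => min_le_right _ _)
  have h3 : UPoly (fun p : List Bool × ℕ => wid k p.1 - p.2) :=
    UPoly.of_le (Poly.sub h1.toPoly (Poly.snd Poly.id)) h1 (fun p => Nat.sub_le _ _)
  exact NPC.Poly.map (F := fun y l => adr k y ++
    (List.replicate (min l (wid k y)) true ++ List.replicate (wid k y - l) false)) (u_wid k).range
    (Poly.append ((poly_adr k).comp (Poly.fst Poly.id)) (Poly.append (p_rep h2 true)
      (p_rep h3 false)))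

/-- the verifier -/
def Ver (k : ℕ) (b e : Bool) (A : Oracle) (y : List Bool) : List Bool :=
  [decide (((Qs k y).map A).all (fun c => decide (c = b)) = e)]

theorem isFP_Ver (k : ℕ) (b e : Bool) (A : Oracle) : IsFP A (Ver k b e A) := by
  have h1 : Poly (fun p : List Bool × List Bool => p.2.all (fun c => decide (c = b))) :=
    Poly.all (p := fun _ c => decide (c = b)) (Poly.snd Poly.id)
      (Poly.decide_eq (Poly.snd Poly.id) (NPC.Poly.const b))
  have h2 : Poly (fun p : List Bool × List Bool =>
      [decide (p.2.all (fun c => decide (c = b)) = e)]) :=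
    Poly.cons (Poly.decide_eq h1 (NPC.Poly.const e)) (NPC.Poly.const [])
  exact IsFP.tt (A := A) (H := fun p => [decide (p.2.all (fun c => decide (c = b)) = e)])
    (poly_Qs k) h2

theorem Ver_iff (k : ℕ) (b e : Bool) (A : Oracle) (y : List Bool) :
    Ver k b e A y = [true] ↔ bitv A b (wid k y) (adr k y) = e := by
  have h1 : ((Qs k y).map A).all (fun c => decide (c = b)) = bitv A b (wid k y) (adr k y) := by
    rw [Bool.eq_iff_iff]
    unfold bitv Qs ptx
    rw [List.all_eq_true, decide_eq_true_iff]
    simp only [List.mem_map, List.mem_range, decide_eq_true_eq]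
    constructor
    · intro h l hl
      have h2 := h _ ⟨_, ⟨l, hl, rfl⟩, rfl⟩
      rw [Nat.min_eq_left hl.le] at h2
      exact h2
    · rintro h c ⟨_, ⟨l, hl, rfl⟩, rfl⟩
      rw [Nat.min_eq_left hl.le]
      exact h l hl
  unfold Ver
  rw [h1]
  simp

theorem lang_sig (A : Oracle) (k : ℕ) (b : Bool) : IsSig A (k + 1) (lang k b A) := by
  refine ⟨Ver (k + 1) b (!(bot true (k + 1))) A, Polynomial.X,
    isFP_Ver _ _ _ _, fun x => ?_⟩
  have h1 := quant_gen (Ver (k + 1) b (!(bot true (k + 1))) A)
    (fun r q => bitv A b (unpair r).1.length ((unpair r).2 ++ q.drop x.length)) (k + 1)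
    ((Polynomial.X : Polynomial ℕ).eval x.length) (!(bot true (k + 1))) x (fun y hy => by
      rw [Ver_iff]
      unfold wid adr
      rw [hy]) (k + 1) 0 true x x x (by omega) rfl rfl (by simp) (by rw [Bool.not_not])
  rw [h1]
  unfold lang
  rw [Set.mem_ofPred_eq]
  have h2 := foldr_up_shift
    ((fun r q => bitv A b (unpair r).1.length ((unpair r).2 ++ q.drop x.length))
      (parse (k + 1) x).2) (bitv A b (unpair (parse (k + 1) x).2).1.length) x
    (unpair (parse (k + 1) x).2).2 (fun s => by
      beta_reduce
      rw [List.drop_left]) (parse (k + 1) x).1 []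
  rw [List.append_nil, List.append_nil] at h2
  rw [h2]
  rfl

end Pool.Agent.H530R3.Ph
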