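import Pool.Agent.H591R3.PHG.Cover

/-!
# The level of the random bits, for arbitrary densities, and the sizes of the levels
-/

set_option autoImplicit false

namespace Pool.Agent.H530R3.Ph

open Finset H568R2 Pool.Agent.H676 Pool.Agent.H620R2.Gauge Pool.Agent.NPC
open Pool.Agent.H591R3.PHG Pool.Agent.H591R3.PHG.LawAux

/-- the first level -/
theorem nxt_law0' {w : ℕ} {t t' : ℝ} (ht : 0 < t) (ht1 : t < 1) (hs : 1 ≤ w) (ht' : 0 < t') :
    nxt t t' 0 w w law0 none = (1 - t) ^ w / t' ∧ nxt t t' 0 w w law0 (some true) = 0 := by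
  have h1 : ∀ v, nxt t t' 0 w w law0 v = K t t' 0 w (fun _ : Fin w => none) v := by
    intro v
    rw [nxt_eq, Finset.sum_eq_single (fun _ : Fin w => (none : Option Bool))]
    · have h0 : ∏ i : Fin w, law0 ((fun _ : Fin w => (none : Option Bool)) i) = 1 :=
        Finset.prod_eq_one fun i _ => if_pos rfl
      rw [h0, one_mul]
    · intro σ _ hσ
      have h2 : ∃ i, σ i ≠ none := by
        by_contra h3
        push Not at h3
        exact hσ (funext h3)
      obtain ⟨i, hi⟩ := h2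
      rw [Finset.prod_eq_zero (Finset.mem_univ i) (if_neg hi), zero_mul]
    · intro h
      exact absurd (Finset.mem_univ _) h
  have h2 : live (fun _ : Fin w => (none : Option Bool)) = univ :=
    Finset.filter_true_of_mem fun _ _ => rfl
  have h3 : Act w (fun _ : Fin w => (none : Option Bool)) := by
    refine ⟨fun i h => by simp at h, ?_⟩
    rw [h2, Finset.card_univ, Fintype.card_fin]
  rw [h1, h1, K_act_none ht ht1 hs h3, K_act_true h3]
  unfold pz
  rw [h2, Finset.card_univ, Fintype.card_fin]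
  constructor
  · ring
  · ring

/-- all levels, and the level of the random bits -/
theorem main_leaf' {X : Type} [Fintype X] [DecidableEq X] {n u D g : ℕ} (hn : 5 ≤ n)
    (hu : 8 * u ≤ n) (hD : 2 ^ (2 * u) * Fintype.card X ≤ D) {q : ℝ} (hq0 : 0 < q) (hq1 : q < 1)
    {w : ℕ} (hw : 1 ≤ w) (hqw : q ^ w ≤ 1 / 2 ^ (4 * n)) (k : ℕ) (cs : List ℕ)
    (hcs : cs.length = k + 1) (m ℓ : ℕ) (F : List Bool → (Idx X (w :: cs) → Bool) → Bool)
    (hF : ∀ y : List Bool, y.length ≤ ℓ + k * (2 * m + 1) → DTr (2 ^ (2 * u)) (F y))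
    (y : X → List Bool) (hy : ∀ j, (y j).length ≤ ℓ) (b : Bool) :
    Ms (1 - q) (w :: cs) (fun _ => none) (fun j => QF m F k b (y j)) ≤
      k * (2 ^ (ℓ + k * (2 * m + 1) + 2) * (1 / 2) ^ (2 ^ (2 * u) + 1)) +
      (1 - 1 / 256) ^ g * (1 + 2 * (1 / 2 ^ (4 * n))) ^ D +
      Ex (nxt (1 - q) (1 / 2 ^ (4 * n)) 0 w w law0)
        (Wt (X := X) (1 / 2 ^ (4 * n)) (1 / 2 ^ (2 * n)) (8 * n * 2 ^ (4 * n)) (1 / 256) D g
          cs) := by
  classical
  set t : ℝ := 1 / 2 ^ (4 * n) with ht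
  have ht0 : 0 < t := by positivity
  have hpow : (1 - (1 - q) : ℝ) ^ w / t ≤ 1 := by
    rw [div_le_one ht0, sub_sub_cancel]
    exact hqw
  have h1q0 : 0 < 1 - q := by linarith
  have h1q1 : 1 - q < 1 := by linarith
  have hcond : (1 - 0) * (1 - (1 - q) : ℝ) ^ w / t + 0 * (1 - (1 - q) : ℝ) ^ w ≤ 1 := by
    rw [zero_mul, add_zero, sub_zero, one_mul]
    exact hpow
  set s0 : Idx X (w :: cs) → Option Bool := fun _ => none with hs0
  rw [Ms_stage (t := 1 - q) (t' := t) (ξ := 0) (smin := w) h1q0 h1q1 ht0 hw cs s0]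
  set E : ℝ := k * (2 ^ (ℓ + k * (2 * m + 1) + 2) * (1 / 2) ^ (2 ^ (2 * u) + 1)) +
      (1 - 1 / 256) ^ g * (1 + 2 * t) ^ D with hE
  set W := Wt (X := X) t (1 / 2 ^ (2 * n)) (8 * n * 2 ^ (4 * n)) (1 / 256) D g cs with hW
  have hterm : ∀ ρ : Idx X cs → St w,
      wt (G := Idx X cs) (1 - q) t 0 w s0 ρ *
        Ms t cs (fun h => (ρ h).1) (fun j z => QF m F k b (y j) (XX (G := Idx X cs) s0 ρ z)) ≤
      wt (G := Idx X cs) (1 - q) t 0 w s0 ρ * E +
        wt (G := Idx X cs) (1 - q) t 0 w s0 ρ * W (fun h => (ρ h).1) := by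
    intro ρ
    rw [← mul_add]
    apply mul_le_mul_of_nonneg_left _
      (wt_nonneg h1q0 h1q1 ht0 le_rfl zero_le_one hw hcond s0 ρ)
    have h5 := main_ind hn hu hD k cs hcs (fun h => (ρ h).1) m ℓ
      (fun y' z => F y' (XX (G := Idx X cs) s0 ρ z))
      (fun y' hy' => DTr_XX (G := Idx X cs) s0 ρ (hF y' hy')) y hy b (g := g)
    refine le_trans (le_of_eq ?_) h5
    congr 1
    funext j z
    rw [QF_comp m F (XX (G := Idx X cs) s0 ρ)]
  refine (Finset.sum_le_sum fun ρ _ => hterm ρ).trans ?_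
  rw [Finset.sum_add_distrib, ← Finset.sum_mul,
    wt_sum h1q0 h1q1 ht0 hw s0, one_mul]
  have h8 := law_stage (G := Idx X cs) (c := w) (smin := w) (t := 1 - q) (t' := t) (ξ := 0)
    law0 W
  rw [Ex_law0] at h8
  rw [← h8]
  exact le_of_eq rfl

end Pool.Agent.H530R3.Ph
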