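import Pool.Agent.H530R3.Ph.Sparse

/-!
# The density threshold for the polynomial hierarchy
-/

set_option autoImplicit false

namespace Pool.Agent.H530R3.Ph

open Pool.Agent.NPC Pool.Agent.H622R2
open Pool.Agent.H620R2.Gauge (Quant)
open Pool.Agent.H591R3.PHG (IsSig IsSigPoly)
open Pool.Agent.H628R3.RO (ofL Alg.out p_out)
open Pool.Agent.H530R3.Adv
open Pool.Agent.H530R3.Thr (biasedOracle lam major zeroDensity)
open MeasureTheory

/-- The level `Σ_k` of the (unrelativized) polynomial hierarchy. -/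
def InSig (k : ℕ) (L : Set (List Bool)) : Prop :=
  ∃ (V : List Bool → List Bool) (p : Polynomial ℕ), PolyTime V ∧
    ∀ x, x ∈ L ↔ Quant (p.eval x.length) V k true x

/-- without an oracle -/
theorem isSig_empty_iff {k : ℕ} {L : Set (List Bool)} :
    IsSig (fun _ => false) k L ↔ InSig k L := by
  constructor
  · rintro ⟨V, p, hV, hL⟩
    refine ⟨V, p, ?_, hL⟩
    obtain ⟨M, hM⟩ := Pool.Agent.H943R5.GC.U6.isFP_toRO hV
    have h1 : Poly (fun x : List Bool => (M.out (ofL []) x).getD []) := by
      refine (Poly.optCases (o := fun x : List Bool => M.out (ofL []) x)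
        (g := fun _ => ([] : List Bool)) (h := fun _ l => l)
        (p_out M (NPC.Poly.const []) Poly.id) (NPC.Poly.const _)
        (Poly.snd Poly.id)).congr fun x => ?_
      cases M.out (ofL []) x <;> rfl
    refine polyTime_of_poly_list (h1.congr fun x => ?_)
    have h2 : ofL [] = fun _ => false := by
      funext y
      simp [ofL]
    rw [h2, hM]
    rfl
  · rintro ⟨V, p, hV, hL⟩
    exact ⟨V, p, Pool.Agent.H943R5.GC.U6.isFP_ofRO (Pool.Agent.H628R3.RO.IsFP.of_poly
      (A := fun _ => false) (poly_of_polyTime hV)), hL⟩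

theorem isSigPoly_iff (A : Pool.Agent.H628R3.RO.Oracle) {k : ℕ} {L : Set (List Bool)} :
    IsSigPoly A k L ↔ WithAdvice (IsSig A k) L := Iff.rfl

theorem isSigPoly_empty_iff {k : ℕ} {L : Set (List Bool)} :
    IsSigPoly (fun _ => false) k L ↔ WithAdvice (InSig k) L :=
  ⟨fun h => WithAdvice.mono (fun _ => isSig_empty_iff.1) h,
    fun h => WithAdvice.mono (fun _ => isSig_empty_iff.2) h⟩

/-- The levels of the hierarchy are different, even nonuniformly. -/
def Strict : Prop := ∀ k, ∃ L : Set (List Bool), InSig (k + 1) L ∧ ¬ WithAdvice (InSig k) L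

variable {p : ℕ → unitInterval}

theorem bounded (h : PolyBdd (lam p)) : ∀ᵐ A ∂(biasedOracle p), ∀ k,
    (∀ L : Set (List Bool), WithAdvice (IsSig A k) L ↔ WithAdvice (InSig k) L) ∧
    ((∃ L : Set (List Bool), IsSig A (k + 1) L ∧ ¬ WithAdvice (IsSig A k) L) ↔
      ∃ L : Set (List Bool), InSig (k + 1) L ∧ ¬ WithAdvice (InSig k) L) := by
  filter_upwards [ae_sparseDiff p h] with A hA
  intro k
  refine ⟨fun L => (sigPoly_iff major_rep hA).trans isSigPoly_empty_iff, ?_⟩
  refine (level_iff major_rep hA k).trans ?_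
  exact exists_congr fun L => and_congr isSig_empty_iff (not_congr isSigPoly_empty_iff)

theorem strict_iff : Strict ↔ ∀ p : ℕ → unitInterval, ∀ᵐ A ∂(biasedOracle p), ∀ k,
    ∃ L : Set (List Bool), IsSig A (k + 1) L ∧ ¬ WithAdvice (IsSig A k) L := by
  constructor
  · intro h p
    by_cases hp : PolyBdd (lam p)
    · filter_upwards [bounded hp] with A hA
      exact fun k => (hA k).2.2 (h k)
    · exact ae_infinite hp
  · intro h k
    obtain ⟨A, h1, h2⟩ := ((h zeroDensity).and (bounded polyBdd_zero)).exists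
    exact (h2 k).2.1 (h1 k)

theorem strict_iff' (hp : PolyBdd (lam p)) : Strict ↔
    0 < biasedOracle p {A | ∀ k, ∃ L : Set (List Bool),
      IsSig A (k + 1) L ∧ ¬ WithAdvice (IsSig A k) L} := by
  constructor
  · intro h
    have h1 := strict_iff.1 h p
    rw [pos_iff_ne_zero]
    intro h2
    have h3 : ∀ᵐ A ∂(biasedOracle p), ¬ ∀ k, ∃ L : Set (List Bool),
        IsSig A (k + 1) L ∧ ¬ WithAdvice (IsSig A k) L := by
      rw [ae_iff]
      simpa only [not_not] using h2
    obtain ⟨A, hA, hA'⟩ := (h1.and h3).exists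
    exact hA' hA
  · intro h
    by_contra hcon
    have h1 : ∀ᵐ A ∂(biasedOracle p), ¬ ∀ k, ∃ L : Set (List Bool),
        IsSig A (k + 1) L ∧ ¬ WithAdvice (IsSig A k) L := by
      filter_upwards [bounded hp] with A hA
      exact fun h2 => hcon fun k => (hA k).2.1 (h2 k)
    rw [ae_iff] at h1
    simp only [not_not] at h1
    rw [h1] at h
    exact lt_irrefl _ h

end Pool.Agent.H530R3.Ph
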