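import Pool.Agent.H530R3.Ph.Final
import Pool.Agent.H530R3.Adv.Growth
import Pool.Agent.H530R3.Adv.Final
import Pool.Agent.H943R5.GC.U6

/-!
# The levels of the hierarchy with advice, relative to sparse variations of tally oracles
-/

set_option autoImplicit false

namespace Pool.Agent.H530R3.Ph

open Pool.Agent.NPC Pool.Agent.H622R2
open Pool.Agent.H620R2.Gauge (Quant)
open Pool.Agent.H591R3.PHG (IsSig IsSigPoly strip poly_strip)
open Pool.Agent.H628R3.RO (ofL Alg.out p_out length_pairBits)
open Pool.Agent.H530R3.Adv
open Pool.Agent.H530R3.Thr (biasedOracle lam eval_mono' major)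
open MeasureTheory

/-- Truncation of the quantified strings to the length `p |φ z|`, and replacement of the innermost
string `z` by `φ z`; the bound is carried along in unary. -/
def trn (φ : List Bool → List Bool) (p : Polynomial ℕ) : ℕ → List Bool → List Unit × List Bool
  | 0, y => (List.replicate (p.eval (φ y).length) (), φ y)
  | k + 1, z => ((trn φ p k (unpair z).2).1,
      pairBits (((unpair z).1.zip (trn φ p k (unpair z).2).1).map (fun u => u.1))
        (trn φ p k (unpair z).2).2)

theorem poly_trn {φ : List Bool → List Bool} (hφ : Poly φ) (p : Polynomial ℕ) (k : ℕ) :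
    Poly (trn φ p k) := by
  have h1 : Poly (fun z : List Bool => (unpair z).1) := Poly.fst poly_unpair
  have h2 : Poly (fun z : List Bool => (unpair z).2) := Poly.snd poly_unpair
  induction k with
  | zero =>
    have h3 : UPoly (fun z : List Bool => p.eval (φ z).length) :=
      UPoly.eval (UPoly.length hφ) p
    exact (Poly.pair h3 hφ).congr (fun z => rfl)
  | succ k ih =>
    have h3 : Poly (fun z : List Bool => trn φ p k (unpair z).2) := ih.comp h2
    have h4 : Poly (fun z : List Bool => (unpair z).1.zip (trn φ p k (unpair z).2).1) :=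
      Poly.zip h1 (Poly.fst h3)
    have h5 : Poly (fun z : List Bool =>
        ((unpair z).1.zip (trn φ p k (unpair z).2).1).map (fun u => u.1)) :=
      NPC.Poly.map (F := fun _ u => u.1) h4 (Poly.fst (Poly.snd Poly.id))
    exact (Poly.pair (Poly.fst h3) (poly_pairBits h5 (Poly.snd h3))).congr (fun z => rfl)

theorem quant_trn (φ : List Bool → List Bool) (p : Polynomial ℕ) {V V' : List Bool → List Bool}
    {m m' K : ℕ} (hm : m ≤ m') (z : List Bool)
    (hV : ∀ y, strip K y = z → V' y = V (trn φ p K y).2) :
    ∀ (k j : ℕ) (b : Bool) (y t : List Bool), j + k = K → strip j y = z →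
      trn φ p j y = (List.replicate m (), t) → (Quant m V k b t ↔ Quant m' V' k b y) := by
  intro k
  induction k with
  | zero =>
    intro j b y t hj hs h
    rw [add_zero] at hj
    subst hj
    have h1 := hV y hs
    rw [h] at h1
    cases b <;> simp [Quant, h1]
  | succ k ih =>
    intro j b y t hj hs h
    have key : ∀ w : List Bool, trn φ p (j + 1) (pairBits w y) =
        (List.replicate m (), pairBits (w.take m) t) := by
      intro w
      simp only [trn, unpair_pairBits, h,
        Pool.Agent.H620R2.Gauge.U2.map_fst_zip_replicate]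
    have hs' : ∀ w : List Bool, strip (j + 1) (pairBits w y) = z := by
      intro w
      simp only [strip, unpair_pairBits]
      exact hs
    cases b with
    | true =>
      simp only [Quant]
      constructor
      · rintro ⟨w, hw, h1⟩
        refine ⟨w, hw.trans hm, ?_⟩
        have h2 := (ih (j + 1) false (pairBits w y) _ (by omega) (hs' w) (key w))
        rw [List.take_of_length_le hw] at h2
        exact h2.1 h1
      · rintro ⟨w, hw, h1⟩
        refine ⟨w.take m, by simp, ?_⟩
        exact (ih (j + 1) false (pairBits w y) _ (by omega) (hs' w) (key w)).2 h1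
    | false =>
      simp only [Quant]
      constructor
      · intro h1 w hw
        exact (ih (j + 1) true (pairBits w y) _ (by omega) (hs' w) (key w)).1
          (h1 (w.take m) (by simp))
      · intro h1 w hw
        have h2 := (ih (j + 1) true (pairBits w y) _ (by omega) (hs' w) (key w))
        rw [List.take_of_length_le hw] at h2
        exact h2.2 (h1 w (hw.trans hm))

theorem quant_congr {m : ℕ} {V V' : List Bool → List Bool} (ℓ : ℕ)
    (h : ∀ y : List Bool, y.length ≤ ℓ → (V y = [true] ↔ V' y = [true])) :
    ∀ (k : ℕ) (b : Bool) (y : List Bool), y.length + k * (2 * m + 1) ≤ ℓ →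
      (Quant m V k b y ↔ Quant m V' k b y) := by
  intro k
  induction k with
  | zero =>
    intro b y hy
    cases b <;> simp only [Quant] <;> exact h y (by omega)
  | succ k ih =>
    intro b y hy
    have hlen : ∀ w : List Bool, w.length ≤ m → (pairBits w y).length + k * (2 * m + 1) ≤ ℓ := by
      intro w hw
      rw [length_pairBits]
      have : (k + 1) * (2 * m + 1) = k * (2 * m + 1) + (2 * m + 1) := by ring
      omega
    cases b with
    | true =>
      simp only [Quant]
      exact exists_congr fun w => and_congr_right fun hw => ih false _ (hlen w hw)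
    | false =>
      simp only [Quant]
      exact forall_congr' fun w => forall_congr' fun hw => ih true _ (hlen w hw)

/-- a bound for the length of the values of a polynomial-time function -/
theorem length_bound {φ : List Bool → List Bool} (hφ : Poly φ) : ∃ r : Polynomial ℕ,
    ∀ z, (φ z).length ≤ r.eval z.length := by
  obtain ⟨q, hq⟩ := hφ.sz_le
  refine ⟨q.comp (Polynomial.C 4 * Polynomial.X + Polynomial.C 1), fun z => ?_⟩
  rw [Polynomial.eval_comp]
  refine (length_lt_sz (φ z)).le.trans ((hq z).trans (eval_mono' q ?_))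
  have h5 := sz_listBool_le z
  simpa using h5

theorem isSig_preimage (A : Pool.Agent.H620R2.Gauge.Oracle) (k : ℕ) (L : Set (List Bool))
    (F : List Bool → List Bool) (hF : Poly F) (h : IsSig A k L) : IsSig A k (F ⁻¹' L) := by
  obtain ⟨V, p, hV, hL⟩ := h
  obtain ⟨r, hr⟩ := length_bound hF
  refine ⟨fun y => V (trn F p k y).2, p.comp r, hV.precomp (Poly.snd (poly_trn hF p k)),
    fun x => ?_⟩
  rw [Set.mem_preimage, hL]
  refine quant_trn F p (K := k) ?_ x (fun y _ => rfl) k 0 true x (F x) (by omega) rfl rfl
  rw [Polynomial.eval_comp]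
  exact eval_mono' p (hr x)

/-- the empty oracle can be removed -/
theorem isSig_of_empty (A : Pool.Agent.H628R3.RO.Oracle) {k : ℕ} {L : Set (List Bool)}
    (h : IsSig (fun _ => false) k L) : IsSig A k L := by
  obtain ⟨V, p, hV, hL⟩ := h
  refine ⟨V, p, Pool.Agent.H943R5.GC.U6.isFP_ofRO ?_, hL⟩
  refine Pool.Agent.H490R3.LH.t_CP A ∅ V ?_ ?_
  · refine ⟨fun _ => [], Pool.Agent.H628R3.RO.IsFP.of_poly (NPC.Poly.const _), fun x => ?_⟩
    simp
  · have h1 : Pool.Agent.H583R2.S2.chr (∅ : Set (List Bool)) = fun _ => false := by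
      funext x
      unfold Pool.Agent.H583R2.S2.chr
      simp
    rw [h1]
    exact Pool.Agent.H943R5.GC.U6.isFP_toRO hV

theorem sigPoly_of_sparse {E : Pool.Agent.H628R3.RO.Oracle} (hE : Sparse E) {k : ℕ}
    {L : Set (List Bool)} {L' : Set (List Bool)} {g : ℕ → List Bool} {s q : Polynomial ℕ}
    {V : List Bool → List Bool} {M : Pool.Agent.H628R3.RO.Alg} (hM : ∀ x, M.out E x = some (V x))
    (hV : ∀ x, x ∈ L' ↔ Quant (q.eval x.length) V k true x)
    (hg : ∀ n, (g n).length ≤ s.eval n) (hL : ∀ x, x ∈ L ↔ pairBits x (g x.length) ∈ L') :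
    IsSigPoly (fun _ => false) k L := by
  obtain ⟨qb, hqb⟩ := exists_tab M
  obtain ⟨P, hP⟩ := length_tab_le hE
  set φ : List Bool → List Bool := fun z => pairBits (unpair z).1 (unpair (unpair z).2).1 with hφ
  set τ : List Bool → List (List Bool) := fun z => tabOf (unpair (unpair z).2).2 with hτ
  have h1 : Poly (fun z : List Bool => (unpair z).1) := Poly.fst poly_unpair
  have h2 : Poly (fun z : List Bool => (unpair z).2) := Poly.snd poly_unpair
  have hpφ : Poly φ := poly_pairBits h1 (h1.comp h2)
  have hpτ : Poly τ := p_tabOf (h2.comp h2)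
  set VT : List (List Bool) → List Bool → List Bool := fun T y =>
    if M.out (ofL T) y = some [true] then [true] else [] with hVT
  have hVTt : ∀ T y, VT T y = [true] ↔ M.out (ofL T) y = some [true] := by
    intro T y
    simp only [hVT]
    split_ifs with h <;> simp [h]
  set L2 : Set (List Bool) := {z | Quant (q.eval (φ z).length) (VT (τ z)) k true (φ z)} with hL2
  obtain ⟨r, hr⟩ := length_bound hpφ
  have hsig : IsSig (fun _ => false) k L2 := by
    have hp : Poly (fun y : List Bool => VT (τ (strip k y)) (trn φ q k y).2) :=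
      Poly.ite (Poly.decide_eq (p_out M (hpτ.comp (poly_strip k))
        (Poly.snd (poly_trn hpφ q k))) (NPC.Poly.const _)) (NPC.Poly.const _) (NPC.Poly.const _)
    refine ⟨_, q.comp r, Pool.Agent.H943R5.GC.U6.isFP_ofRO
      (Pool.Agent.H628R3.RO.IsFP.of_poly (A := fun _ => false) hp), fun z => ?_⟩
    rw [hL2, Set.mem_ofPred_eq]
    refine quant_trn φ q (K := k) ?_ z (fun y hy => by rw [hy]) k 0 true z (φ z) (by omega) rfl rfl
    rw [Polynomial.eval_comp]
    exact eval_mono' q (hr z)
  set lt : Polynomial ℕ := 2 * Polynomial.X + 1 + s + Polynomial.C k *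
    (2 * q.comp (2 * Polynomial.X + 1 + s) + 1) with hlt
  have hlte : ∀ n, lt.eval n = 2 * n + 1 + s.eval n + k * (2 * q.eval (2 * n + 1 + s.eval n) + 1) := by
    intro n
    rw [hlt]
    simp only [Polynomial.eval_add, Polynomial.eval_mul, Polynomial.eval_X, Polynomial.eval_ofNat,
      Polynomial.eval_one, Polynomial.eval_comp, Polynomial.eval_C]
  refine ⟨L2, fun n => pairBits (g n) (bits (tab E (qb.eval (lt.eval n)))),
    2 * s + 1 + P.comp (qb.comp lt), hsig, fun n => ?_, fun x => ?_⟩
  · rw [length_pairBits]
    have h3 := hP (qb.eval (lt.eval n))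
    have h4 := hg n
    simp only [Polynomial.eval_add, Polynomial.eval_mul, Polynomial.eval_ofNat,
      Polynomial.eval_one, Polynomial.eval_comp]
    omega
  · have e1 : φ (pairBits x (pairBits (g x.length)
        (bits (tab E (qb.eval (lt.eval x.length)))))) = pairBits x (g x.length) := by
      simp only [hφ, unpair_pairBits]
    have e2 : τ (pairBits x (pairBits (g x.length)
        (bits (tab E (qb.eval (lt.eval x.length)))))) = tab E (qb.eval (lt.eval x.length)) := by
      simp only [hτ, unpair_pairBits, tabOf_bits]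
    have h3 : (pairBits x (g x.length)).length ≤ 2 * x.length + 1 + s.eval x.length := by
      rw [length_pairBits]
      have := hg x.length
      omega
    rw [hL2, Set.mem_ofPred_eq, e1, e2, hL x, hV]
    refine (quant_congr (lt.eval x.length) (fun y hy => ?_) k true _ ?_).symm
    · rw [hVTt, hqb E (lt.eval x.length) y hy, hM]
      simp
    · rw [hlte]
      have h4 : q.eval (pairBits x (g x.length)).length ≤
          q.eval (2 * x.length + 1 + s.eval x.length) := eval_mono' q h3
      have h5 : k * (2 * q.eval (pairBits x (g x.length)).length + 1) ≤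
          k * (2 * q.eval (2 * x.length + 1 + s.eval x.length) + 1) :=
        Nat.mul_le_mul_left _ (by omega)
      omega

theorem sigPoly_iff {A B : Pool.Agent.H628R3.RO.Oracle}
    (hB : ∀ x, B x = B (List.replicate x.length true)) (h : SparseDiff A B) {k : ℕ}
    {L : Set (List Bool)} : IsSigPoly A k L ↔ IsSigPoly (fun _ => false) k L := by
  constructor
  · rintro ⟨L', g, s, ⟨V, q, hV, hq⟩, hg, hL⟩
    obtain ⟨M, hM⟩ := isFP_join hB (Pool.Agent.H943R5.GC.U6.isFP_toRO hV)
    exact sigPoly_of_sparse (sparse_join h) hM hq hg hL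
  · rintro ⟨L', g, s, hS, hg, hL⟩
    exact ⟨L', g, s, isSig_of_empty A hS, hg, hL⟩

theorem level_iff {A B : Pool.Agent.H628R3.RO.Oracle}
    (hB : ∀ x, B x = B (List.replicate x.length true)) (h : SparseDiff A B) (k : ℕ) :
    (∃ L : Set (List Bool), IsSig A (k + 1) L ∧ ¬ IsSigPoly A k L) ↔
      ∃ L : Set (List Bool), IsSig (fun _ => false) (k + 1) L ∧
        ¬ IsSigPoly (fun _ => false) k L := by
  constructor
  · rintro ⟨L, h1, h2⟩
    obtain ⟨L', g, s, h3, h4, h5⟩ := (sigPoly_iff hB h).1 h1.isSigPoly
    refine ⟨L', h3, fun h6 => h2 ((sigPoly_iff hB h).2 ?_)⟩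
    have h7 : WithAdvice (WithAdvice (IsSig (fun _ => false) k)) L := ⟨L', g, s, h6, h4, h5⟩
    exact WithAdvice.twice (isSig_preimage (fun _ => false) k) h7
  · rintro ⟨L, h1, h2⟩
    exact ⟨L, isSig_of_empty A h1, fun h3 => h2 ((sigPoly_iff hB h).1 h3)⟩

end Pool.Agent.H530R3.Ph
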