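import Pool.Agent.H530R3.Ph.Tree
import Pool.Agent.H530R3.Thr.Meas

/-!
# Random bits at some strings, all others fixed
-/

set_option autoImplicit false

namespace Pool.Agent.H530R3.Ph

open Finset H568R2 Pool.Agent.H676 Pool.Agent.H620R2.Gauge Pool.Agent.NPC
open Pool.Agent.H591R3.PHG (ber)
open MeasureTheory
open Pool.Agent.H530R3.Thr (biasedOracle pr qq qq_nonneg bias bias_singleton pr_inter_of_disjoint
  pr_nonneg pr_mono)
open Pool.Agent.H628R3.RO (Loc measurableSet_of_loc)

section fill

variable {I : Type} [Fintype I] [DecidableEq I] (b : Bool) (pos : I → List Bool)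

open Classical in
/-- the oracle with the bits `z g ^^ b` at the strings `pos g`, and the bits of `B` elsewhere -/
noncomputable def fill (B : Oracle) (z : I → Bool) : Oracle :=
  fun s => if h : ∃ g, pos g = s then (z h.choose ^^ b) else B s

variable {pos}

theorem fill_pos (hinj : Function.Injective pos) (B : Oracle) (z : I → Bool) (g : I) :
    fill b pos B z (pos g) = (z g ^^ b) := by
  have h : ∃ g', pos g' = pos g := ⟨g, rfl⟩
  unfold fill
  rw [dif_pos h, hinj h.choose_spec]

theorem fill_of_not (B : Oracle) (z : I → Bool) {s : List Bool} (h : ¬ ∃ g, pos g = s) :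
    fill b pos B z s = B s := by
  unfold fill
  rw [dif_neg h]

theorem dtr_fill (hinj : Function.Injective pos) (B : Oracle) (M : Alg) (y : List Bool) :
    ∀ (n : ℕ) (acc : List Bool),
    DTr n (fun z : I → Bool => decide (M.run (fill b pos B z) y n acc = some [true])) := by
  intro n
  induction n with
  | zero =>
    intro acc
    exact ⟨false, fun a => by simp [Alg.run]⟩
  | succ n ih =>
    intro acc
    rcases hq : M.D (pairBits y acc) with _ | ⟨c, q⟩
    · exact DTr.const ⟨false, fun a => by simp [Alg.run, hq]⟩
    · cases c with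
      | true => exact DTr.const ⟨decide (q = [true]), fun a => by simp [Alg.run, hq]⟩
      | false =>
        by_cases hD : ∃ g, pos g = q
        · obtain ⟨g, rfl⟩ := hD
          refine Or.inr ⟨g, fun c => ?_⟩
          have h1 := DTr_update (ih (acc ++ [(c ^^ b)])) g c
          have h2 : (fun z : I → Bool => decide (M.run (fill b pos B (Function.update z g c)) y
              (n + 1) acc = some [true])) = fun z => decide (M.run
              (fill b pos B (Function.update z g c)) y n (acc ++ [(c ^^ b)]) = some [true]) := by
            funext z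
            simp only [Alg.run, hq, fill_pos b hinj, Function.update_self]
          rw [h2]
          exact h1
        · have h2 : (fun z : I → Bool => decide (M.run (fill b pos B z) y (n + 1) acc =
              some [true])) = fun z => decide (M.run (fill b pos B z) y n (acc ++ [B q]) =
              some [true]) := by
            funext z
            simp only [Alg.run, hq, fill_of_not b B z hD]
          rw [h2]
          exact (ih (acc ++ [B q])).succ

theorem dtr_fill_out (hinj : Function.Injective pos) (B : Oracle) (M : Alg) (y : List Bool) :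
    DTr (M.p.eval y.length)
      (fun z : I → Bool => decide (M.out (fill b pos B z) y = some [true])) :=
  dtr_fill b hinj B M y _ []

variable {p : ℕ → unitInterval}

theorem pr_pattern (hinj : Function.Injective pos) {N : ℕ} (hN : ∀ g, (pos g).length = N)
    (z : I → Bool) : pr p {A : Oracle | ∀ g, A (pos g) = (z g ^^ b)} =
      ∏ g, ber (1 - qq p N b) (z g) := by
  classical
  set v : List Bool → Bool := fun s => if h : ∃ g, pos g = s then (z h.choose ^^ b) else false
    with hv
  have hvp : ∀ g, v (pos g) = (z g ^^ b) := by
    intro g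
    have h : ∃ g', pos g' = pos g := ⟨g, rfl⟩
    rw [hv]
    dsimp only
    rw [dif_pos h, hinj h.choose_spec]
  have h1 : {A : Oracle | ∀ g, A (pos g) = (z g ^^ b)} =
      Set.pi ((univ.image pos : Finset (List Bool)) : Set (List Bool)) (fun s => {v s}) := by
    ext A
    simp only [Set.mem_ofPred_eq, Set.mem_pi, Finset.coe_image, Set.mem_image, Finset.coe_univ,
      Set.mem_univ, true_and, Set.mem_singleton_iff, forall_exists_index,
      forall_apply_eq_imp_iff, hvp]
  have h2 := Measure.infinitePi_pi (fun x : List Bool => bias (p x.length))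
    (s := univ.image pos) (t := fun s => {v s}) (fun i _ => MeasurableSet.singleton _)
  unfold pr
  rw [measureReal_def, h1]
  unfold biasedOracle
  rw [h2, Finset.prod_image fun a _ a' _ h => hinj h]
  have h3 : ∀ g, bias (p (pos g).length) {v (pos g)} =
      ENNReal.ofReal (ber (1 - qq p N b) (z g)) := by
    intro g
    rw [bias_singleton, hN, hvp]
    congr 1
    unfold qq ber
    cases z g <;> cases b <;> simp
  rw [Finset.prod_congr rfl fun g _ => h3 g, ENNReal.toReal_prod]
  refine Finset.prod_congr rfl fun g _ => ENNReal.toReal_ofReal ?_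
  unfold qq ber
  have h0 := (p N).2.1
  have h1 := (p N).2.2
  cases z g <;> cases b <;> simp <;> linarith

open Classical in
/-- the random bits at the strings `pos g`, for fixed bits at the others -/
theorem pr_le_of_fill (hinj : Function.Injective pos) {N : ℕ} (hN : ∀ g, (pos g).length = N)
    {S : Set Oracle} {K : Set (List Bool)} (hK : K.Finite) (hS : Loc K S) {c : ℝ}
    (h : ∀ B, Ex (ber (1 - qq p N b)) (fun z : I → Bool =>
      if fill b pos B z ∈ S then (1 : ℝ) else 0) ≤ c) : pr p S ≤ c := by
  set P : (I → Bool) → Set Oracle := fun z => {A : Oracle | ∀ g, A (pos g) = (z g ^^ b)} with hP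
  set E : (I → Bool) → Set Oracle := fun z => {A : Oracle | fill b pos A z ∈ S} with hE
  have hR : (Set.range pos).Finite := Set.finite_range pos
  have hPloc : ∀ z, Loc (Set.range pos) (P z) := by
    intro z A A' hA
    simp only [hP, Set.mem_ofPred_eq]
    exact forall_congr' fun g => by rw [hA (pos g) ⟨g, rfl⟩]
  have hEloc : ∀ z, Loc (K \ Set.range pos) (E z) := by
    intro z A A' hA
    simp only [hE, Set.mem_ofPred_eq]
    refine hS _ _ fun x hx => ?_
    by_cases hxr : ∃ g, pos g = x
    · obtain ⟨g, rfl⟩ := hxr
      rw [fill_pos b hinj, fill_pos b hinj]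
    · rw [fill_of_not b _ _ hxr, fill_of_not b _ _ hxr]
      exact hA x ⟨hx, fun ⟨g, hg⟩ => hxr ⟨g, hg⟩⟩
  have hKR : (K \ Set.range pos).Finite := hK.subset Set.sdiff_subset
  have hPE : ∀ z, S ∩ P z = E z ∩ P z := by
    intro z
    ext A
    simp only [Set.mem_inter_iff]
    refine and_congr_left fun hA => ?_
    have : fill b pos A z = A := by
      funext s
      by_cases hs : ∃ g, pos g = s
      · obtain ⟨g, rfl⟩ := hs
        rw [fill_pos b hinj, hA g]
      · rw [fill_of_not b _ _ hs]
    simp only [hE, Set.mem_ofPred_eq, this]
  have hsub : S ⊆ ⋃ z ∈ (univ : Finset (I → Bool)), (S ∩ P z) := by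
    intro A hA
    simp only [Finset.mem_univ, Set.iUnion_true, Set.mem_iUnion]
    refine ⟨fun g => (A (pos g) ^^ b), hA, fun g => ?_⟩
    simp
  have h1 : pr p S ≤ ∑ z : I → Bool, (∏ g, ber (1 - qq p N b) (z g)) * pr p (E z) := by
    refine (pr_mono hsub).trans ?_
    unfold pr
    refine (measureReal_biUnion_finset_le _ _).trans (le_of_eq ?_)
    refine Finset.sum_congr rfl fun z _ => ?_
    have h2 := pr_inter_of_disjoint (p := p) hKR hR Set.disjoint_sdiff_left (hEloc z) (hPloc z)
    rw [← pr_pattern b hinj hN z, hPE z]
    unfold pr at h2 ⊢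
    rw [h2, mul_comm]
  refine h1.trans ?_
  have hEm : ∀ z, MeasurableSet (E z) := fun z => measurableSet_of_loc hKR (hEloc z)
  set wg : (I → Bool) → ℝ := fun z => ∏ g, ber (1 - qq p N b) (z g) with hwg
  have e2 : ∫ A, (∑ z : I → Bool, (E z).indicator (fun _ => wg z) A) ∂(biasedOracle p) =
      ∑ z : I → Bool, wg z * pr p (E z) := by
    rw [integral_finsetSum]
    · refine Finset.sum_congr rfl fun z _ => ?_
      rw [integral_indicator_const _ (hEm z)]
      unfold pr
      rw [smul_eq_mul, mul_comm]
    · intro z _
      exact (integrable_const _).indicator (hEm z)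
  refine (le_of_eq e2.symm).trans ?_
  calc ∫ A, (∑ z : I → Bool, (E z).indicator (fun _ => wg z) A) ∂(biasedOracle p) ≤
        ∫ _A, c ∂(biasedOracle p) := by
        refine integral_mono (integrable_finsetSum _ fun z _ =>
          (integrable_const _).indicator (hEm z)) (integrable_const _) fun A => ?_
        refine le_trans (le_of_eq ?_) (h A)
        unfold Ex
        refine Finset.sum_congr rfl fun z _ => ?_
        rw [Set.indicator_apply]
        simp only [hE, hwg, Set.mem_ofPred_eq]
        split_ifs <;> simp
    _ = c := by simp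

end fill

end Pool.Agent.H530R3.Ph
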