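import Pool.Agent.H530R3.Ph.Lang

/-!
# The hard language and the trees of NOR gates; the strings of the questions
-/

set_option autoImplicit false

namespace Pool.Agent.H530R3.Ph

open Finset H568R2 Pool.Agent.H676 Pool.Agent.H620R2.Gauge Pool.Agent.NPC Pool.Agent.H622R2
open Pool.Agent.H591R3.PHG Pool.Agent.H591R3.PHG.LangTrAux

/-- the string of a leaf -/
def pt {X : Type} (z : X → List Bool) (as : List ℕ) (w : ℕ) (g : Idx X (w :: pw as)) : List Bool :=
  ptx w (addr z as g.1) g.2.val

theorem mem_lang_iff {X : Type} (A : Oracle) (k : ℕ) (b : Bool) (as : List ℕ)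
    (hk : as.length = k + 1) (w : ℕ) (z : X → List Bool) (j : X) :
    enc as w (z j) ∈ lang k b A ↔
      Tr (w :: pw as) (fun g : Idx X (w :: pw as) => (A (pt z as w g) ^^ b)) j = false := by
  have h1 : Tr (w :: pw as) (fun g : Idx X (w :: pw as) => (A (pt z as w g) ^^ b)) j =
      (as.foldl (fun v a => up a v) (bitv A b w)) (z j) := by
    rw [← Tr_addr z as (bitv A b w) j]
    show Tr (pw as) (fun g : Idx X (pw as) => decide (∀ i : Fin w,
      (A (ptx w (addr z as g) i.val) ^^ b) = false)) j = _
    congr 1
    funext g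
    unfold bitv
    congr 1
    apply propext
    have e : ∀ c : Bool, ((c ^^ b) = false ↔ c = b) := by
      intro c
      cases c <;> cases b <;> simp
    constructor
    · intro h i hi
      exact (e _).1 (h ⟨i, hi⟩)
    · intro h i
      exact (e _).2 (h i.val i.isLt)
  rw [h1]
  have h2 : parse (k + 1) (enc as w (z j)) =
      (as.reverse, pairBits (List.replicate w true) (z j)) := by
    rw [← hk]
    exact parse_enc as w (z j)
  unfold lang
  rw [Set.mem_ofPred_eq, h2]
  dsimp only
  rw [unpair_pairBits]
  dsimp only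
  rw [List.length_replicate, List.foldr_reverse]

theorem length_ptx {w l : ℕ} (h : l < w) (q : List Bool) : (ptx w q l).length = q.length + w := by
  unfold ptx
  simp
  omega

theorem ptx_inj {w l l' : ℕ} {q q' : List Bool} (hq : q.length = q'.length)
    (h : ptx w q l = ptx w q' l') (hl : l < w) (hl' : l' < w) : q = q' ∧ l = l' := by
  unfold ptx at h
  obtain ⟨h1, h2⟩ := List.append_inj h hq
  refine ⟨h1, ?_⟩
  have h3 := congrArg (List.count true) h2
  rw [List.count_append, List.count_append, List.count_replicate, List.count_replicate,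
    List.count_replicate, List.count_replicate] at h3
  simpa using h3

theorem pt_inj {X : Type} (z : X → List Bool) (hz : Function.Injective z) (ℓ : ℕ)
    (hl : ∀ j, (z j).length = ℓ) (as : List ℕ) (w : ℕ) : Function.Injective (pt z as w) := by
  intro g g' h
  have h0 : (addr z as g.1).length = (addr z as g'.1).length := by
    rw [length_addr z ℓ hl, length_addr z ℓ hl]
  have h1 := ptx_inj h0 h g.2.isLt g'.2.isLt
  exact Prod.ext (addr_inj z hz ℓ hl as h1.1) (Fin.ext h1.2)

theorem length_pt {X : Type} (z : X → List Bool) (ℓ : ℕ) (hl : ∀ j, (z j).length = ℓ)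
    (as : List ℕ) (w : ℕ) (g : Idx X (w :: pw as)) : (pt z as w g).length = ℓ + as.sum + w := by
  unfold pt
  rw [length_ptx g.2.isLt, length_addr z ℓ hl]

end Pool.Agent.H530R3.Ph
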